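import Pool.Agent.helper60.DA.SpecV

namespace Pool.Agent.helper60.DA

open Polynomial Finset Pool.Agent.helper60.DK

theorem CST' : CST_stmt := by
  intro p hp T P hP0 hdeg hnp hder
  classical
  have hpp := hp.out
  obtain ⟨d, th, pi, hT, hP, hcop⟩ : ∃ d th pi : (ZMod p)[X], T = d * th ∧ P = d * pi
      ∧ IsCoprime th pi := by
    obtain ⟨th, hth⟩ := EuclideanDomain.gcd_dvd_left T P
    obtain ⟨pi, hpi⟩ := EuclideanDomain.gcd_dvd_right T P
    refine ⟨EuclideanDomain.gcd T P, th, pi, hth, hpi, ?_⟩
    have hd0 : EuclideanDomain.gcd T P ≠ 0 := by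
      intro h
      rw [h, zero_mul] at hpi
      exact hP0 hpi
    have hb := EuclideanDomain.gcd_eq_gcd_ab T P
    refine ⟨EuclideanDomain.gcdA T P, EuclideanDomain.gcdB T P, ?_⟩
    apply mul_left_cancel₀ hd0
    calc EuclideanDomain.gcd T P * (EuclideanDomain.gcdA T P * th + EuclideanDomain.gcdB T P * pi)
        = (EuclideanDomain.gcd T P * th) * EuclideanDomain.gcdA T P
          + (EuclideanDomain.gcd T P * pi) * EuclideanDomain.gcdB T P := by ring
      _ = T * EuclideanDomain.gcdA T P + P * EuclideanDomain.gcdB T P := by rw [← hth, ← hpi]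
      _ = EuclideanDomain.gcd T P * 1 := by rw [← hb, mul_one]
  have hd0 : d ≠ 0 := by
    rintro rfl
    rw [zero_mul] at hP
    exact hP0 hP
  have hpi0 : pi ≠ 0 := by
    rintro rfl
    rw [mul_zero] at hP
    exact hP0 hP
  have h1 : derivative th * pi = th * derivative pi := by
    rw [hT, hP, derivative_mul, derivative_mul] at hder
    apply mul_left_cancel₀ (pow_ne_zero 2 hd0)
    linear_combination hder
  have h2 : pi ∣ derivative pi := by
    have h3 : pi ∣ th * derivative pi := ⟨derivative th, by rw [← h1, mul_comm]⟩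
    exact hcop.symm.dvd_of_dvd_mul_left h3
  have h3 : derivative pi = 0 := by
    by_contra hne
    have h4 := natDegree_le_of_dvd h2 hne
    by_cases h5 : pi.natDegree = 0
    · rw [eq_C_of_natDegree_eq_zero h5, derivative_C] at hne
      exact hne rfl
    · have := natDegree_derivative_lt h5
      omega
  have h4 : derivative th = 0 := by
    rw [h3, mul_zero] at h1
    rcases mul_eq_zero.mp h1 with h | h
    · exact h
    · exact absurd h hpi0
  have e1 := expand_contract p h3 hpp.ne_zero
  have e2 := expand_contract p h4 hpp.ne_zero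
  set q := contract p pi with hq
  set g := contract p th with hg
  have hq0 : q ≠ 0 := by
    intro h
    rw [h, map_zero] at e1
    exact hpi0 e1.symm
  have hqd : q.natDegree ≤ 1 := by
    have h5 : pi.natDegree ≤ P.natDegree := by
      apply natDegree_le_of_dvd _ hP0
      exact ⟨d, by rw [hP, mul_comm]⟩
    have h6 : (expand (ZMod p) p q).natDegree = q.natDegree * p := natDegree_expand p q
    rw [e1] at h6
    have h7 : q.natDegree * p < 2 * p := by omega
    have := Nat.lt_of_mul_lt_mul_right h7
    omega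
  have hq00 : q.natDegree = 0 := by
    by_contra hne
    have h1' : q.natDegree = 1 := by omega
    have hl := eq_X_add_C_of_natDegree_le_one hqd
    set a := q.coeff 1 with ha
    set b := q.coeff 0 with hb
    have ha0 : a ≠ 0 := by
      rw [ha, ← h1']
      exact leadingCoeff_ne_zero.mpr hq0
    apply hnp (-(a⁻¹ * b))
    rw [hP, ← e1, hl]
    refine Dvd.dvd.mul_left ?_ d
    refine ⟨C a, ?_⟩
    rw [map_add, map_mul, expand_C, expand_X, expand_C, map_neg, sub_neg_eq_add]
    have hfr : (X + C (a⁻¹ * b)) ^ p = X ^ p + C (a⁻¹ * b) := by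
      rw [add_pow_char, ← C_pow, ZMod.pow_card]
    rw [hfr, add_mul, ← C_mul]
    have : a⁻¹ * b * a = b := by field_simp
    rw [this]; ring
  obtain ⟨c, hc⟩ : ∃ c, q = C c := ⟨_, eq_C_of_natDegree_eq_zero hq00⟩
  have hc0 : c ≠ 0 := by
    rintro rfl
    rw [map_zero] at hc
    exact hq0 hc
  have hpi : pi = C c := by rw [← e1, hc, expand_C]
  refine ⟨C c⁻¹ * g, ?_⟩
  rw [map_mul, expand_C, hP, hpi, e2, hT]
  have : C c⁻¹ * C c = (1 : (ZMod p)[X]) := by rw [← C_mul, inv_mul_cancel₀ hc0, C_1]
  linear_combination -(d * th) * this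

end Pool.Agent.helper60.DA
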