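import Pool.Agent.helper60.DA.SpecV
import Pool.Agent.helper60.DK.ALL

/-!
# Rows dw:* (MP_fb2c2a_nt, full part (a), the value `S_p(1/8)` modulo `p^2`)

Everything imported is proved.  Every row is a `Prop` below; please prove
`theorem Pool.Agent.helper60.DA.<ROW> (h : <OTHER>_stmt) ... : <ROW>_stmt` in
`Pool/Agent/<seat>/DA/<ROW>.lean` (import this file; the other rows named in the docstring may be
hypotheses, also rows of SpecV), land it, lock note DONE, one line to helper60.  No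
`convert`/`congr!`/`native_decide`.  Auxiliary lemmas: names starting with the row name.

Notation as in SpecV: `h = hh p = (p-1)/2`, `Pp p = (1+4X)^h W`, `W = Wp p`, `St`, `IsV`, `Jop`.
-/

namespace Pool.Agent.helper60.DA

open Polynomial Finset Pool.Agent.helper60.DK

/-- `X d/dX` -/
noncomputable def Dx {R : Type*} [CommRing R] (f : R[X]) : R[X] := X * derivative f

/-- `(4X)^d f(1/(4X))` -/
noncomputable def rv {R : Type*} [CommRing R] (d : ℕ) (f : R[X]) : R[X] :=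
  ∑ i ∈ range (d + 1), C (f.coeff i * 4 ^ (d - i)) * X ^ (d - i)

/-- `(4X)^(3h) S_p(1/(4X))` -/
noncomputable def Nz (p : ℕ) : ℤ[X] := rv (3 * hh p) (St p)

/-- `V2` is the quotient `((1+X)^h Nz - (1+4X)^h S)/p` -/
def IsV2 (p : ℕ) (V2 : ℤ[X]) : Prop :=
  (1 + X) ^ hh p * Nz p = (1 + 4 * X) ^ hh p * St p + C (p : ℤ) * V2

/-- the common operator for `(1+4X)^h S` and `(1+X)^h Nz` -/
noncomputable def Jc {R : Type*} [CommRing R] (M : R[X]) : R[X] :=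
  4 * (1 + X) ^ 2 * (1 + 4 * X) ^ 2 * (2 * (M * Dx (Dx M)) - Dx M ^ 2)
    + 8 * X * (1 + X) * (1 + 4 * X) * (5 + 8 * X) * (M * Dx M)
    + (28 * X + 195 * X ^ 2 + 432 * X ^ 3 + 256 * X ^ 4) * M ^ 2

/-- the reversed operator (`2c = 3(P-1)` inserted) -/
noncomputable def Jr {R : Type*} [CommRing R] (P : R[X]) (N : R[X]) : R[X] :=
  4 * (1 + X) * (1 + 4 * X) ^ 2 * (2 * (N * Dx (Dx N)) - Dx N ^ 2)
    + (12 * X * (1 + 4 * X) * (3 + 4 * X) - 12 * P * (1 + X) * (1 + 4 * X) ^ 2) * (N * Dx N)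
    + (24 * X * (1 + 2 * X) * (1 + 3 * X) - 18 * P * X * (1 + 4 * X) * (3 + 4 * X)
        + 9 * P ^ 2 * (1 + X) * (1 + 4 * X) ^ 2) * N ^ 2

/-- ROW dw:RV (pure).  Reversal: multiplicative, additive, linear, values, derivative (on `X^i`:
`i (4X)^(d-i) = d (4X)^(d-i) - (d-i) (4X)^(d-i)`). -/
def RV_stmt : Prop := ∀ (R : Type) [CommRing R],
  (∀ (a b : ℕ) (f g : R[X]), f.natDegree ≤ a → g.natDegree ≤ b → rv (a + b) (f * g) = rv a f * rv b g) ∧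
  (∀ (a : ℕ) (f g : R[X]), rv a (f + g) = rv a f + rv a g) ∧
  (∀ (a : ℕ) (c : R) (f : R[X]), rv a (C c * f) = C c * rv a f) ∧
  (rv 1 (X : R[X]) = 1 ∧ rv 1 (1 + X : R[X]) = 1 + 4 * X ∧ rv 1 (1 + 4 * X : R[X]) = 4 * (1 + X)
    ∧ rv 1 (1 + 2 * X : R[X]) = 2 * (1 + 2 * X)) ∧
  (∀ (d : ℕ) (f : R[X]), rv d (Dx f) = C (d : R) * rv d f - Dx (rv d f)) ∧
  (∀ (d : ℕ) (f : R[X]), (rv d f).natDegree ≤ d)

/-- ROW dw:JR (hyp `RV_stmt`, identity in `ℤ[X]`).  First (`ring`, `X²f'' = Dx(Dx f) - Dx f`)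
`Jop y = 4(1+X)²(1+4X)(2 y Dx(Dx y) - (Dx y)²) + 24 X(1+X)(1+2X) y Dx y + (12X+51X²+36X³) y²`; apply
`rv (2c+3)`, `c = 3h`: with `N = rv c y`, `w = cN - Dx N = rv c (Dx y)`,
`w₂ = c w - Dx w = rv c (Dx (Dx y))`, `rv (2c+3) (Jop y) = 4 {4(1+X)(1+4X)²(2N w₂ - w²)
+ 12(1+4X)(1+2X) N w + (9+51X+48X²) N²}` and the braces are `Jr (C (2h+1)) N` (`ring`,
`2c = 3((2h+1)-1)`). -/
def JR_stmt : Prop := ∀ (h : ℕ) (y : ℤ[X]), y.natDegree ≤ 3 * h →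
  rv (6 * h + 3) (Jop y) = 4 * Jr (C (2 * (h : ℤ) + 1)) (rv (3 * h) y)

/-- ROW dw:JN (hyps `RV_stmt`, `JR_stmt`, `JST_stmt`).  `4 * Jr .. (Nz p) = rv .. (C (p^2) * Z) = C (p^2) * ..`;
cancel the 4 (coefficientwise, `p` odd). `2 hh p + 1 = p`. -/
def JN_stmt : Prop := ∀ (p : ℕ) [Fact p.Prime], 7 ≤ p → ∃ Z : ℤ[X],
  Jr (C (p : ℤ)) (Nz p) = C ((p : ℤ) ^ 2) * Z

/-- ROW dw:MA (identity, `R = ℤ`).  `M = (1+4X)^h y`, `P = 2h+1`: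
`(1+4X) Dx M = (1+4X)^h ((1+4X) Dx y + 4hX y)`, so `(1+4X)^(h+1) Dx y = (1+4X) Dx M - (2P-2) X M`, and
`(1+4X)^(h+2) Dx(Dx y) = (1+4X)² Dx(Dx M) - 2(2P-2)X(1+4X) Dx M + ((2P-2)²X² - (2P-2)X) M`; the right
side is `(1+4X)^(2h+1)` times the formula for `Jop y` in row JR (multiply by `(1+4X)^2`, `ring`,
cancel). Checked numerically. -/
def MA_stmt : Prop := ∀ (h : ℕ) (y : ℤ[X]),
  Jc ((1 + 4 * X) ^ h * y)
    - 16 * C (2 * (h : ℤ) + 1) * X * (1 + X) * (1 + 4 * X)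
      * ((1 + X) * (((1 + 4 * X) ^ h * y) * Dx ((1 + 4 * X) ^ h * y))
        + (1 + 2 * X) * ((1 + 4 * X) ^ h * y) ^ 2)
    + 16 * C (2 * (h : ℤ) + 1) ^ 2 * X ^ 2 * (1 + X) ^ 2 * ((1 + 4 * X) ^ h * y) ^ 2
    = (1 + 4 * X) ^ (2 * h + 1) * Jop y

/-- ROW dw:MB (identity, `R = ℤ`).  `M = (1+X)^h N`, `P = 2h+1`:
`2(1+X)^(h+1) Dx N = 2(1+X) Dx M - (P-1) X M`,
`4(1+X)^(h+2) Dx(Dx N) = 4(1+X)² Dx(Dx M) - 4(P-1)X(1+X) Dx M + ((P-1)²X² - 2(P-1)X) M`.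
Checked numerically. -/
def MB_stmt : Prop := ∀ (h : ℕ) (N : ℤ[X]),
  Jc ((1 + X) ^ h * N)
    - 4 * C (2 * (h : ℤ) + 1) * (1 + X) * (1 + 4 * X)
      * ((1 + 4 * X) * (3 + 4 * X) * (((1 + X) ^ h * N) * Dx ((1 + X) ^ h * N))
        + 16 * X * (1 + 2 * X) * ((1 + X) ^ h * N) ^ 2)
    + C (2 * (h : ℤ) + 1) ^ 2 * (1 + 4 * X) ^ 2 * (3 + 4 * X) ^ 2 * ((1 + X) ^ h * N) ^ 2
    = (1 + X) ^ (2 * h + 1) * Jr (C (2 * (h : ℤ) + 1)) N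

/-- ROW dw:INV (hyp `ST_stmt`; uses the proved `WF`, `me : ME_stmt`).  For `x` in
`F = AlgebraicClosure (ZMod p)`, `x ≠ 0, -1, -1/4`: take `s` with `s² = (1+4x)/(1+x)`,
`y = -(s-1)²(s+2)/4`, `y' = -(s-1)(s+2)²/(2s³)`, `x' = 1/(4x)`. Then
`16(1+x)³ y(1+y) = -27x²`, `16(1+x')³ y'(1+y') = -27x'²` (`1+y = (2-s)(s+1)²/4`,
`1+y' = (s-2)²(s+1)/(2s³)`, `s²-1 = 3x/(1+x)`, `4-s² = 3/(1+x)`), WF twice and `ME` squared give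
`(1+x)^h (4x)^(3h) S(x') = (1+4x)^h S(x)`; the two polynomials agree at infinitely many points. -/
def INV_stmt : Prop := ∀ (p : ℕ) [Fact p.Prime], 5 ≤ p →
  red p ((1 + X) ^ hh p * Nz p) = Pp p ∧ red p ((1 + 4 * X) ^ hh p * St p) = Pp p

/-- ROW dw:VTX (hyps `INV_stmt`, `RV_stmt`). -/
def VTX_stmt : Prop := ∀ (p : ℕ) [Fact p.Prime], 5 ≤ p → (∃ V2 : ℤ[X], IsV2 p V2) ∧
  ∀ V2 : ℤ[X], IsV2 p V2 → V2.natDegree ≤ 4 * hh p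

/-- ROW dw:R2W (hyps `JN MA MB INV JST`).  `M = M0 + p V2` with `M = (1+X)^h Nz`, `M0 = (1+4X)^h St`; MA and MB
with `Jop (St p) ≡ 0`, `Jr .. (Nz p) ≡ 0` modulo `p²`; subtract, divide by `p`, reduce modulo `p`. -/
def R2W_stmt : Prop := ∀ (p : ℕ) [Fact p.Prime], 7 ≤ p → ∀ V2 : ℤ[X], IsV2 p V2 →
  Jc (Pp p) = 0 ∧
  4 * (1 + X) ^ 2 * (1 + 4 * X) ^ 2 * (2 * (Pp p * Dx (Dx (red p V2))) + 2 * (red p V2 * Dx (Dx (Pp p)))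
      - 2 * (Dx (Pp p) * Dx (red p V2)))
    + 8 * X * (1 + X) * (1 + 4 * X) * (5 + 8 * X) * (Pp p * Dx (red p V2) + red p V2 * Dx (Pp p))
    + 2 * (28 * X + 195 * X ^ 2 + 432 * X ^ 3 + 256 * X ^ 4) * (Pp p * red p V2)
    - 12 * (1 + X) * (1 + 4 * X) * (1 + 2 * X)
      * ((1 + 2 * X) * (Pp p * Dx (Pp p)) + 4 * X * Pp p ^ 2) = 0

/-- `X(1+X)(1+4X)(v'P - vP') - (3/2)(1+2X)²P²` -/
noncomputable def Tw (p : ℕ) [Fact p.Prime] (v : (ZMod p)[X]) : (ZMod p)[X] :=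
  X * (1 + X) * (1 + 4 * X) * (derivative v * Pp p - v * derivative (Pp p))
    - C (3 / 2) * (1 + 2 * X) ^ 2 * Pp p ^ 2

/-- ROW dw:FW1 (hyp `R2W_stmt`).  With `v = red p V2`, `P = Pp p`:
`8 X (1+X)(1+4X) (Tw' P - Tw P') = P * (second equation) - 2 v * Jc P` (`ring` after unfolding `Dx`,
`C (3/2) = 3/2`: use `2 * C (3/2) = 3`), cancel. -/
def FW1_stmt : Prop := ∀ (p : ℕ) [Fact p.Prime], 7 ≤ p → ∀ V2 : ℤ[X], IsV2 p V2 →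
  derivative (Tw p (red p V2)) * Pp p = Tw p (red p V2) * derivative (Pp p)

/-- ROW dw:M3 (pure).  There is `w` with `w²+w+1 = 0` (element of order 3), `(2w+1)² = -3`. -/
def M3_stmt : Prop := ∀ (p : ℕ) [Fact p.Prime], 5 ≤ p → p % 3 = 1 → (-3 : ZMod p) ^ hh p = 1

/-- ROW dw:VM (hyps `ST_stmt`, `M3_stmt`).  `IsV2` at `x = -1`: `0 = (-3)^h St(-1) + p V2(-1)`, and
`St(-1) ≡ Sz(-1) = p mod p²` (`Dz_eval_neg_one`: `∑ (-1)^k (-1)^(3k) = p`). -/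
def VM_stmt : Prop := ∀ (p : ℕ) [Fact p.Prime], 7 ≤ p → p % 3 = 1 → ∀ V2 : ℤ[X], IsV2 p V2 →
  (red p V2).eval (-1) = -1

/-- ROW dw:FW2 (hyps `VTX FW1 CST NPF WL GX VM`).  `Tw = expand g * P` (CST, `natDegree P = 4h = 2p-2`,
`P` monic up to `4^h = 1`, NPF). `natDegree Tw ≤ 8h+2 = 4p-2`, coefficient `-6` there (the coefficient of
`X^(8h-1)` in `v'P - vP'` is 0): `natDegree g ≤ 2`, `g₂ = -6`; `X = 0`: `g₀ = -3/2` (`P(0) = 1`);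
`P = (1+X)^h Q`, `Q(-1) ≠ 0` (GX), divide by `(1+X)^h` and evaluate at `-1`:
`g(-1) = -3h v(-1) = (3/2) v(-1) = -3/2` (`2h = -1`), so `g₁ = -6`. -/
def FW2_stmt : Prop := ∀ (p : ℕ) [Fact p.Prime], 7 ≤ p → p % 3 = 1 → ∀ V2 : ℤ[X], IsV2 p V2 →
  Tw p (red p V2) = -C (3 / 2) * (1 + 2 * X ^ p) ^ 2 * Pp p

/-- ROW dw:VT (hyps `VEX_stmt`, `RV_stmt`).  Coefficient of `X^(4h)` in `IsV2`:
`4^(3h) = 4^h St_{3h} + p (V2)_{4h}` (`St_0 = 1`), coefficient of `X^(3h)` in `IsV`: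
`16^h St_{3h} = 16^h + p V_{3h}` (in `S1 p` only `k = 0` reaches degree `3h`), `4^h = 2^(p-1) = 1 + p fq 2`
(`fq_spec`). -/
def VT_stmt : Prop := ∀ (p : ℕ) [Fact p.Prime], 5 ≤ p → ∀ V V2 : ℤ[X], IsV p V → IsV2 p V2 →
  (red p V2).coeff (4 * hh p) = 2 * Q2 p - (red p V).coeff (3 * hh p)

/-- the auxiliary polynomial of (★★) -/
noncomputable def Fw (p : ℕ) [Fact p.Prime] (v w : (ZMod p)[X]) : (ZMod p)[X] :=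
  X ^ p * (1 + 4 * X ^ p) * w + (1 + 2 * X ^ p) ^ 2 * ((1 + 4 * X) ^ hh p * v)
    + Pp p * (C (1 / 2) * X ^ p * ph p 1 (4 * X) + C (1 / 2) * (8 * X ^ p + 3) * ph p X 1)

/-- ROW dw:FD (hyps `FO_stmt`, `FW2_stmt`, `PHD_stmt`).  `z = X^p` has derivative 0; multiply by
`2X(1+X)(1+4X)`, use FO in the form `X(1+X)(v'W - vW') + (3/2)XW² = (3/2) z P` times `(1+4X)^(2h)`
(for `(1+4X)^h v` and `P = (1+4X)^h W` the Wronskian is `(1+4X)^(2h)(v'W - vW')`), FW2, PHD with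
`(1+X)^(p-1)(1+X) = 1+z`, `(1+4X)^(p-1)(1+4X) = 1+4z`, `X^(p-1)X = z`, `(1+4X)^(2h) (1+4X) = 1+4z`
(`2h+1 = p`); what remains is
`3(z(1+4z)(1+2X)² - X(1+4X)(1+2z)²) = 2(X-z)... ` : precisely
`(3/2)[z(1+4z)(1+2X)² - X(1+2z)²(1+4X)] + (X-z)[2z(1+X) + (1/2)(8z+3)(1+4X)] = 0`. -/
def FD_stmt : Prop := ∀ (p : ℕ) [Fact p.Prime], 7 ≤ p → p % 3 = 1 → ∀ V V2 : ℤ[X],
  IsV p V → IsV2 p V2 →
  derivative (Fw p (red p V) (red p V2)) * Pp p = Fw p (red p V) (red p V2) * derivative (Pp p)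

/-- ROW dw:SW (hyps `FD CST NPF WL VEX VTX VT E14 PHV PHD`).  `Fw = expand g * P` (CST); `natDegree Fw ≤ 2p+4h`
so `natDegree g ≤ 2`; `X = 0`: `g₀ = 0`; top coefficient `4 (V2)_{4h} + 4 V_{3h} = 8 Q2 = g₂`
(`4^h = 1`, the terms with `ph` have degree `< 2p+4h`); divide by `(1+4X)^h`
(`1+4X^p = (1+4X)^p`) and evaluate at `-1/4`: `v(-1/4)/4 + W(-1/4)(-(1/8) ph(1,-1) + (1/2) ph(-1/4,1))
= g(-1/4) W(-1/4)`, so `g(-1/4) = -Q2/4`, `g₁ = 3 Q2`. -/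
def SW_stmt : Prop := ∀ (p : ℕ) [Fact p.Prime], 7 ≤ p → p % 3 = 1 → ∀ V V2 : ℤ[X],
  IsV p V → IsV2 p V2 →
  Fw p (red p V) (red p V2) = (C (3 * Q2 p) * X ^ p + C (8 * Q2 p) * X ^ (2 * p)) * Pp p

/-- ROW dw:E8 (hyps `SW E2 PHV`).  SW at `x = 2`: `2^p = 2`, `9^h = 1`, `(1+4*2)^h = 9^h`, `P(2) = W(2)`:
`18 v₂(2) + 25 v(2) + W(2)(ph(1,8) + (19/2) ph(2,1)) = W(2) 38 Q2`. -/
def E8_stmt : Prop := ∀ (p : ℕ) [Fact p.Prime], 7 ≤ p → p % 3 = 1 → ∀ V V2 : ℤ[X],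
  IsV p V → IsV2 p V2 →
  (red p V2).eval 2 = (Wp p).eval 2 * (-(1 / 2) * Q3 p + 9 / 2 * Q2 p)

/-- ROW dw:F8 (hyps `VEX VTX E8 SQ ST`; `qc` is in DA/Defs.lean, `qc^2 = 1`).  `IsV2` at `x = 2` in
`ZMod (p^2)`: `3^h 8^(3h) St(t) = 9^h St(2) + lp(v₂(2))` (`Nz(2) = ∑ St_i 8^(3h-i)`, `8t = 1`), with SQ:
`3^h = qc3 (1+lp(Q3/2))`, `8^(3h) = (2^h)^9 = qc2 (1 + lp(9 Q2/2))`, `9^h = 1 + lp(Q3)`, `lp(v₂(2)) =
St(2) lp(-Q3/2 + 9Q2/2)`; cancel `1 + lp(Q3/2 + 9Q2/2)`. -/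
def F8_stmt : Prop := ∀ (p : ℕ) [Fact p.Prime], 7 ≤ p → p % 3 = 1 →
  ∀ t : ℤ, 8 * (t : ZMod (p ^ 2)) = 1 →
  (((St p).eval t : ℤ) : ZMod (p ^ 2)) = qc p 2 * qc p 3 * (((St p).eval 2 : ℤ) : ZMod (p ^ 2))

end Pool.Agent.helper60.DA
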