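import Pool.Agent.helper60.DA.SpecJ
import Pool.Agent.helper60.DA.SpecW

/-!
# Final assembly of the full part (a)
-/

namespace Pool.Agent.helper60.DA

open Polynomial Finset Pool.Agent.helper60.DK

theorem not_dvd_den_sub {p : ℕ} [hp : Fact p.Prime] {a b : ℚ} (ha : ¬ p ∣ a.den)
    (hb : ¬ p ∣ b.den) : ¬ p ∣ (a - b).den := by
  intro h
  have h1 := h.trans (Rat.sub_den_dvd a b)
  rcases hp.out.dvd_mul.mp h1 with h2 | h2
  · exact ha h2
  · exact hb h2

theorem not_dvd_den_int_mul {p : ℕ} [hp : Fact p.Prime] {a : ℚ} (n : ℤ) (ha : ¬ p ∣ a.den) :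
    ¬ p ∣ ((n : ℚ) * a).den := by
  intro h
  have h1 := h.trans (Rat.mul_den_dvd (n : ℚ) a)
  rw [Rat.den_intCast, one_mul] at h1
  exact ha h1

theorem congrSq_trans_symm {p : ℕ} [hp : Fact p.Prime] {a b c : ℚ} (h1 : CongrSq p a c)
    (h2 : CongrSq p b c) : CongrSq p a b := by
  obtain ⟨r, hr, e⟩ := h1
  obtain ⟨s, hs, f⟩ := h2
  exact ⟨r - s, not_dvd_den_sub hr hs, by linear_combination e - f⟩

theorem congrSq_int_mul {p : ℕ} [hp : Fact p.Prime] {a b : ℚ} (n : ℤ) (h1 : CongrSq p a b) :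
    CongrSq p ((n : ℚ) * a) ((n : ℚ) * b) := by
  obtain ⟨r, hr, e⟩ := h1
  exact ⟨n * r, not_dvd_den_int_mul n hr, by linear_combination (n : ℚ) * e⟩

/-- transfer from `ZMod (p^2)` to rationals -/
theorem transfer {p : ℕ} [hp : Fact p.Prime] (tr2 : TR2_stmt) {x : ℚ} {t c : ℤ}
    (hd : ¬ p ∣ x.den) (ht : (p : ℤ) ^ 2 ∣ t * x.den - x.num)
    (h : (((Sz p).eval t : ℤ) : ZMod (p ^ 2)) = (c : ZMod (p ^ 2))) :
    CongrSq p (∑ k ∈ range p, (-1) ^ k * D k x ^ 3) (c : ℚ) := by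
  have h1 : (p : ℤ) ^ 2 ∣ (Sz p - C c).eval t := by
    rw [eval_sub, eval_C]
    have h2 : (((Sz p).eval t - c : ℤ) : ZMod (p ^ 2)) = 0 := by
      push_cast; rw [h]; ring
    rw [ZMod.intCast_zmod_eq_zero_iff_dvd] at h2
    exact_mod_cast h2
  obtain ⟨r, hr1, hr2⟩ := tr2 p (Sz p - C c) x t hd ht h1
  refine ⟨r, hr1, ?_⟩
  rw [map_sub, aeval_Sz, aeval_C] at hr2
  rw [← hr2]
  simp

theorem eval_Sz_eq {p : ℕ} [hp : Fact p.Prime] (st : ST_stmt) (h5 : 5 ≤ p) (t : ℤ) :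
    (((Sz p).eval t : ℤ) : ZMod (p ^ 2)) = (((St p).eval t : ℤ) : ZMod (p ^ 2)) := by
  obtain ⟨Z, hZ⟩ := st p h5
  rw [hZ, eval_add, eval_mul, eval_C]
  have h0 : ((p : ZMod (p ^ 2))) ^ 2 = 0 := by
    have : ((p ^ 2 : ℕ) : ZMod (p ^ 2)) = 0 := ZMod.natCast_self _
    push_cast at this
    exact this
  push_cast
  rw [h0]; ring

theorem qc_eq {p : ℕ} [hp : Fact p.Prime] (a : ℤ) :
    qc p (a : ZMod p) = ((legendreSym p a : ℤ) : ZMod (p ^ 2)) := rfl

theorem leg3 {p : ℕ} [hp : Fact p.Prime] (m3 : M3_stmt) (h5 : 5 ≤ p) (hm : p % 3 = 1) :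
    legendreSym p 3 = legendreSym p (-1) := by
  have h1 := m3 p h5 hm
  have h3 : ((-3 : ℤ) : ZMod p) ≠ 0 := by
    rw [Ne, int_dvd_iff]
    intro h
    have h2 : (p : ℤ) ∣ 3 := by rwa [dvd_neg] at h
    have := Int.le_of_dvd (by norm_num) h2
    omega
  have h4 : ((legendreSym p (-3) : ℤ) : ZMod p) = 1 := by
    rw [legendreSym.eq_pow]
    have : hh p = p / 2 := by
      unfold hh
      have := hp.out.eq_two_or_odd
      omega
    rw [← this]
    push_cast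
    exact h1
  have h5' : legendreSym p (-3) = 1 := by
    rcases legendreSym.eq_one_or_neg_one p h3 with h | h
    · exact h
    · rw [h] at h4
      exfalso
      push_cast at h4
      have h6 : ((2 : ℤ) : ZMod p) = 0 := by push_cast; linear_combination -h4
      rw [int_dvd_iff] at h6
      have := Int.le_of_dvd (by norm_num) h6
      omega
  have h6 : legendreSym p (-3) = legendreSym p (-1) * legendreSym p 3 := by
    rw [← legendreSym.mul]; norm_num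
  have h7 : legendreSym p (-1) * legendreSym p (-1) = 1 := by
    have := legendreSym.sq_one p (a := -1) (by
      rw [Ne, int_dvd_iff]
      intro h
      have h2 : (p : ℤ) ∣ 1 := by rwa [dvd_neg] at h
      have := Int.le_of_dvd (by norm_num) h2
      omega)
    rw [← sq]; exact this
  rw [h5'] at h6
  calc legendreSym p 3 = (legendreSym p (-1) * legendreSym p (-1)) * legendreSym p 3 := by
        rw [h7, one_mul]
    _ = legendreSym p (-1) * (legendreSym p (-1) * legendreSym p 3) := by ring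
    _ = legendreSym p (-1) := by rw [← h6, mul_one]


theorem sq_leg {p : ℕ} [hp : Fact p.Prime] (h7 : 7 ≤ p) {a : ℤ} (ha : a ∣ 6) :
    legendreSym p a * legendreSym p a = 1 := by
  rw [← sq]
  apply legendreSym.sq_one
  rw [Ne, int_dvd_iff]
  intro h
  have h2 : (p : ℤ) ∣ 6 := h.trans ha
  have := Int.le_of_dvd (by norm_num) h2
  omega

/-- the three values modulo `p^2` -/
theorem vals (te : TE_stmt) (f2 : F2_stmt) (f14 : F14_stmt) (f8 : F8_stmt) (st : ST_stmt)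
    (m3 : M3_stmt) {p : ℕ} [hp : Fact p.Prime] (h7 : 7 ≤ p) (hm : p % 3 = 1) :
    ∃ X Y : ℤ, X ^ 2 + 3 * Y ^ 2 = p ∧
      (((Sz p).eval 2 : ℤ) : ZMod (p ^ 2))
        = ((legendreSym p (-1) * (4 * X ^ 2 - 2 * p) : ℤ) : ZMod (p ^ 2)) ∧
      (∀ t : ℤ, 4 * (t : ZMod (p ^ 2)) = -1 → (((Sz p).eval t : ℤ) : ZMod (p ^ 2))
        = ((legendreSym p (-1) * (4 * X ^ 2 - 2 * p) : ℤ) : ZMod (p ^ 2))) ∧
      (∀ t : ℤ, 8 * (t : ZMod (p ^ 2)) = 1 → (((Sz p).eval t : ℤ) : ZMod (p ^ 2))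
        = ((legendreSym p 2 * (4 * X ^ 2 - 2 * p) : ℤ) : ZMod (p ^ 2))) := by
  have hodd : p % 2 = 1 := by
    rcases hp.out.eq_two_or_odd with h | h
    · omega
    · exact h
  have h6 : p % 6 = 1 := by omega
  obtain ⟨X, Y, hXY, hT⟩ := te p (by omega) h6
  have h108 : IsUnit (108 : ZMod (p ^ 2)) := by
    apply isUnit_of_rd_ne_zero
    rw [map_ofNat]
    have h2 := two_ne (p := p) (by omega)
    have h3 : (3 : ZMod p) ≠ 0 := by
      have := small_ne (p := p) h7 (m := 3) (by norm_num) (by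
        intro q hq hd
        have := Nat.le_of_dvd (by norm_num) hd
        omega)
      exact_mod_cast this
    have e : (108 : ZMod p) = 2 ^ 2 * 3 ^ 3 := by norm_num
    rw [e]
    exact mul_ne_zero (pow_ne_zero _ h2) (pow_ne_zero _ h3)
  obtain ⟨w, hw⟩ := h108
  set u : ZMod (p ^ 2) := ((w⁻¹ : (ZMod (p ^ 2))ˣ) : ZMod (p ^ 2)) with hu
  have h1 : 108 * u = 1 := by rw [hu, ← hw]; exact w.mul_inv
  have hTu := hT u h1
  have q3 : qc p 3 = ((legendreSym p (-1) : ℤ) : ZMod (p ^ 2)) := by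
    have h := qc_eq (p := p) 3
    push_cast at h
    rw [h, leg3 m3 (by omega) hm]
  have q2 : qc p 2 = ((legendreSym p 2 : ℤ) : ZMod (p ^ 2)) := by
    have h := qc_eq (p := p) 2
    push_cast at h
    exact h
  have e2 : (((St p).eval 2 : ℤ) : ZMod (p ^ 2))
      = ((legendreSym p (-1) * (4 * X ^ 2 - 2 * p) : ℤ) : ZMod (p ^ 2)) := by
    rw [f2 p h7 hm u h1, hTu, q3]; push_cast; ring
  refine ⟨X, Y, hXY, ?_, ?_, ?_⟩
  · rw [eval_Sz_eq st (by omega), e2]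
  · intro t ht
    rw [eval_Sz_eq st (by omega), f14 p h7 hm u h1 t ht, hTu, q3]; push_cast; ring
  · intro t ht
    rw [eval_Sz_eq st (by omega), f8 p h7 hm t ht, e2, q3, q2]
    have h2 : ((legendreSym p (-1) : ℤ) : ZMod (p ^ 2)) * ((legendreSym p (-1) : ℤ) : ZMod (p ^ 2))
        = 1 := by
      rw [← Int.cast_mul, sq_leg h7 (by norm_num)]; simp
    push_cast
    linear_combination ((legendreSym p 2 : ℤ) : ZMod (p ^ 2))
      * (4 * (X : ZMod (p ^ 2)) ^ 2 - 2 * (p : ZMod (p ^ 2))) * h2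

/-- Part (a) for `p ≡ 1 mod 3` -/
theorem splitA (tr1 : TR1_stmt) (tr2 : TR2_stmt) (par : PAR_stmt) (te : TE_stmt) (uni : UNI_stmt)
    (f2 : F2_stmt) (f14 : F14_stmt) (f8 : F8_stmt) (st : ST_stmt) (m3 : M3_stmt)
    {p : ℕ} [hp : Fact p.Prime] (h3 : 3 < p) (hm : p % 3 = 1) (x y : ℤ)
    (hxy : (p : ℤ) = x ^ 2 + 3 * y ^ 2) :
    CongrSq p (∑ k ∈ range p, D k (-3) ^ 3)
      ((legendreSym p (-1) : ℚ) * (4 * (x : ℚ) ^ 2 - 2 * (p : ℚ))) ∧
    CongrSq p (∑ k ∈ range p, (-1) ^ k * D k (-1 / 4) ^ 3)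
      ((legendreSym p (-1) : ℚ) * (4 * (x : ℚ) ^ 2 - 2 * (p : ℚ))) ∧
    CongrSq p ((legendreSym p (-2) : ℚ) * ∑ k ∈ range p, (-1) ^ k * D k (1 / 8) ^ 3)
      ((legendreSym p (-1) : ℚ) * (4 * (x : ℚ) ^ 2 - 2 * (p : ℚ))) := by
  have h7 : 7 ≤ p := by
    have : p ≠ 4 := by
      rintro rfl
      exact absurd hp.out (by norm_num)
    omega
  obtain ⟨X, Y, hXY, e2, e14, e8⟩ := vals te f2 f14 f8 st m3 h7 hm
  have hx : x ^ 2 = X ^ 2 := uni p h3 X Y x y hXY hxy.symm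
  have hc1 : (((legendreSym p (-1) * (4 * X ^ 2 - 2 * p) : ℤ)) : ℚ)
      = (legendreSym p (-1) : ℚ) * (4 * (x : ℚ) ^ 2 - 2 * (p : ℚ)) := by
    rw [← hx]; push_cast; ring
  have hpow : ∀ n : ℕ, n ≠ 0 → (∀ q : ℕ, q.Prime → q ∣ n → q < 7) → ¬ p ∣ n := by
    intro n _ h hd
    have := h p hp.out hd
    omega
  refine ⟨?_, ?_, ?_⟩
  · have hd : ¬ p ∣ (2 : ℚ).den := by
      have : (2 : ℚ).den = 1 := by norm_num
      rw [this]
      intro h
      exact hp.out.one_lt.ne' (Nat.dvd_one.mp h)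
    have h := transfer tr2 (p := p) (x := 2) (t := 2)
      (c := legendreSym p (-1) * (4 * X ^ 2 - 2 * p)) hd (by norm_num) e2
    rw [hc1, ← sum_par par] at h
    norm_num at h
    exact h
  · have hden : (-1 / 4 : ℚ).den = 4 := by norm_num
    have hnum : (-1 / 4 : ℚ).num = -1 := by norm_num
    have hd : ¬ p ∣ (-1 / 4 : ℚ).den := by
      rw [hden]
      intro h
      have := Nat.le_of_dvd (by norm_num) h
      omega
    obtain ⟨t, ht⟩ := tr1 p (-1 / 4) hd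
    have ht' : 4 * (t : ZMod (p ^ 2)) = -1 := by
      have h := ht
      rw [hden, hnum] at h
      have e : ((p ^ 2 : ℕ) : ℤ) ∣ t * ((4 : ℕ) : ℤ) - -1 := by exact_mod_cast h
      rw [← ZMod.intCast_zmod_eq_zero_iff_dvd] at e
      push_cast at e
      linear_combination e
    have h := transfer tr2 hd ht (e14 t ht')
    rw [hc1] at h
    exact h
  · have hden : (1 / 8 : ℚ).den = 8 := by norm_num
    have hnum : (1 / 8 : ℚ).num = 1 := by norm_num
    have hd : ¬ p ∣ (1 / 8 : ℚ).den := by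
      rw [hden]
      intro h
      have h2 : p ∣ 2 ^ 3 := by norm_num; exact h
      have h3' := hp.out.dvd_of_dvd_pow h2
      have := Nat.le_of_dvd (by norm_num) h3'
      omega
    obtain ⟨t, ht⟩ := tr1 p (1 / 8) hd
    have ht' : 8 * (t : ZMod (p ^ 2)) = 1 := by
      have h := ht
      rw [hden, hnum] at h
      have e : ((p ^ 2 : ℕ) : ℤ) ∣ t * ((8 : ℕ) : ℤ) - 1 := by exact_mod_cast h
      rw [← ZMod.intCast_zmod_eq_zero_iff_dvd] at e
      push_cast at e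
      linear_combination e
    have h := congrSq_int_mul (legendreSym p (-2)) (transfer tr2 hd ht (e8 t ht'))
    have h2 : (legendreSym p (-2) : ℤ) = legendreSym p (-1) * legendreSym p 2 := by
      rw [← legendreSym.mul]; norm_num
    have h4 := sq_leg h7 (a := 2) (by norm_num)
    have e : ((legendreSym p (-2) : ℤ) : ℚ) * ((legendreSym p 2 * (4 * X ^ 2 - 2 * p) : ℤ) : ℚ)
        = (legendreSym p (-1) : ℚ) * (4 * (x : ℚ) ^ 2 - 2 * (p : ℚ)) := by
      rw [← hc1, ← Int.cast_mul]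
      congr 1
      rw [h2]
      linear_combination (legendreSym p (-1) * (4 * X ^ 2 - 2 * p)) * h4
    rw [e] at h
    exact h

/-- The full part (a) -/
theorem fullA_of (tr1 : TR1_stmt) (tr2 : TR2_stmt) (par : PAR_stmt) (te : TE_stmt) (uni : UNI_stmt)
    (f2 : F2_stmt) (f14 : F14_stmt) (f8 : F8_stmt) (st : ST_stmt) (m3 : M3_stmt)
    {p : ℕ} [hp : Fact p.Prime] (h3 : 3 < p) :
    CongrSq p (∑ k ∈ range p, D k (-3) ^ 3) (∑ k ∈ range p, (-1) ^ k * D k (-1 / 4) ^ 3) ∧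
    CongrSq p (∑ k ∈ range p, (-1) ^ k * D k (-1 / 4) ^ 3)
      ((legendreSym p (-2) : ℚ) * ∑ k ∈ range p, (-1) ^ k * D k (1 / 8) ^ 3) ∧
    (p % 3 = 1 → ∀ x y : ℤ, (p : ℤ) = x ^ 2 + 3 * y ^ 2 →
      CongrSq p (∑ k ∈ range p, D k (-3) ^ 3)
        ((legendreSym p (-1) : ℚ) * (4 * (x : ℚ) ^ 2 - 2 * (p : ℚ)))) ∧
    (p % 3 = 2 → CongrSq p (∑ k ∈ range p, D k (-3) ^ 3) 0) := by
  have hmod : p % 3 = 1 ∨ p % 3 = 2 := by
    have h0 : p % 3 ≠ 0 := by
      intro h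
      have := (Nat.prime_dvd_prime_iff_eq Nat.prime_three hp.out).mp (Nat.dvd_of_mod_eq_zero h)
      omega
    omega
  rcases hmod with hm | hm
  · have h6 : p % 6 = 1 := by
      rcases hp.out.eq_two_or_odd with h | h <;> omega
    obtain ⟨x, y, hxy, _⟩ := te p h3 h6
    obtain ⟨h1, h2, h4⟩ := splitA tr1 tr2 par te uni f2 f14 f8 st m3 h3 hm x y hxy.symm
    refine ⟨congrSq_trans_symm h1 h2, congrSq_trans_symm h2 h4, ?_, fun h => absurd h (by omega)⟩
    intro _ x y hxy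
    exact (splitA tr1 tr2 par te uni f2 f14 f8 st m3 h3 hm x y hxy).1
  · obtain ⟨h1, h2, h4⟩ := inertA p hp.out h3 hm
    have h5 := congrSq_int_mul (legendreSym p (-2)) h4
    rw [mul_zero] at h5
    exact ⟨congrSq_trans_symm h1 h2, congrSq_trans_symm h2 h5, fun h => absurd h (by omega), fun _ => h1⟩

end Pool.Agent.helper60.DA
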