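import Pool.Agent.helper60.DA.SpecW

namespace Pool.Agent.helper60.DA

open Polynomial Finset Pool.Agent.helper60.DK

theorem VM' (st : ST_stmt) (m3 : M3_stmt) : VM_stmt := by
  intro p hp h7 hm V2 hV
  have hp0 : (p : ℤ) ≠ 0 := by exact_mod_cast hp.out.ne_zero
  obtain ⟨Z, hZ⟩ := st p (by omega)
  have hh0 : hh p ≠ 0 := by unfold hh; omega
  have h1 := congrArg (eval (-1 : ℤ)) hV
  simp only [eval_mul, eval_pow, eval_add, eval_one, eval_X, eval_ofNat, eval_C] at h1
  have h2 := congrArg (eval (-1 : ℤ)) hZ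
  simp only [eval_mul, eval_add, eval_C] at h2
  have h3 : (Sz p).eval (-1) = (p : ℤ) := by
    unfold Sz
    rw [eval_finset_sum]
    have : ∀ k ∈ range p, eval (-1) ((-1) ^ k * Dz k ^ 3) = (1 : ℤ) := by
      intro k _
      rw [eval_mul, eval_pow, eval_pow, eval_neg, eval_one, Dz_eval_neg_one, ← pow_mul, ← pow_add]
      have : k + k * 3 = 2 * (2 * k) := by ring
      rw [this, pow_mul]; norm_num
    rw [sum_congr rfl this]
    simp
  have e0 : ((1 : ℤ) + -1) ^ hh p = 0 := by
    rw [show (1 : ℤ) + -1 = 0 by norm_num, zero_pow hh0]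
  have e3 : ((1 : ℤ) + 4 * -1) = -3 := by norm_num
  rw [e0, zero_mul, e3] at h1
  have h4 : V2.eval (-1) = -(-3) ^ hh p * (1 - p * Z.eval (-1)) := by
    apply mul_left_cancel₀ hp0
    rw [h3] at h2
    linear_combination -h1 + (-3) ^ hh p * h2
  have h5 := red_eval (p := p) V2 (-1)
  push_cast at h5
  rw [h5, h4]
  push_cast
  rw [m3 p (by omega) hm]
  simp

end Pool.Agent.helper60.DA
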