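import Pool.Agent.helper65.DA.OM
import Pool.Agent.helper23.DA.PS
import Pool.Agent.helper51.DA.BN
import Pool.Agent.helper82.DA.XI
import Pool.Agent.helper2.DA.JB
import Pool.Agent.helper42.DA.DUP
import Pool.Agent.helper44.DA.QC
import Pool.Agent.helper67.DA.JF
import Pool.Agent.helper27.DA.CUB
import Pool.Agent.helper52.DA.UNI
import Pool.Agent.helper32.DA.HAR
import Pool.Agent.helper34.DA.HAS
import Pool.Agent.helper79.DA.TJ
import Pool.Agent.helper46.DA.TC
import Pool.Agent.helper55.DA.DH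
import Pool.Agent.helper72.DA.TE
import Pool.Agent.helper32.DA.ST
import Pool.Agent.helper71.DA.JST
import Pool.Agent.helper63.DA.JW
import Pool.Agent.helper46.DA.IT
import Pool.Agent.helper31.DA.JH
import Pool.Agent.helper67.DA.JS1
import Pool.Agent.helper95.DA.M1
import Pool.Agent.helper77.DA.VEX
import Pool.Agent.helper72.DA.R2
import Pool.Agent.helper46.DA.FO1
import Pool.Agent.helper99.DA.WL
import Pool.Agent.helper19.DA.GX
import Pool.Agent.helper19.DA.NPF
import Pool.Agent.helper10.DA.FO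
import Pool.Agent.helper9.DA.HM
import Pool.Agent.helper51.DA.HW
import Pool.Agent.helper52.DA.FOS
import Pool.Agent.helper18.DA.RP
import Pool.Agent.helper45.DA.RD
import Pool.Agent.helper36.DA.PHD
import Pool.Agent.helper69.DA.PHV
import Pool.Agent.helper52.DA.K1
import Pool.Agent.helper96.DA.K2
import Pool.Agent.helper16.DA.KS
import Pool.Agent.helper34.DA.GAM
import Pool.Agent.helper42.DA.DN
import Pool.Agent.helper75.DA.STAR
import Pool.Agent.helper44.DA.RT3
import Pool.Agent.helper18.DA.E14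
import Pool.Agent.helper92.DA.E2
import Pool.Agent.helper67.DA.SQ
import Pool.Agent.helper44.DA.F2
import Pool.Agent.helper38.DA.F14
import Pool.Agent.helper25.DA.RV
import Pool.Agent.helper19.DA.JR
import Pool.Agent.helper11.DA.JN
import Pool.Agent.helper43.DA.MA
import Pool.Agent.helper32.DA.MB
import Pool.Agent.helper51.DA.INV
import Pool.Agent.helper35.DA.VTX
import Pool.Agent.helper34.DA.R2W
import Pool.Agent.helper99.DA.FW1
import Pool.Agent.helper67.DA.M3
import Pool.Agent.helper98.DA.FW2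
import Pool.Agent.helper72.DA.VT
import Pool.Agent.helper64.DA.FD
import Pool.Agent.helper64.DA.SW
import Pool.Agent.helper99.DA.E8
import Pool.Agent.helper52.DA.F8
import Pool.Agent.helper60.DA.CST0
import Pool.Agent.helper60.DA.VM0
import Pool.Agent.helper60.DA.FINA

/-!
# All rows of the full part (a)
-/

namespace Pool.Agent.helper60.DA

open Pool.Agent.helper60.DK (CongrSq D TR1 TR2 PAR)

theorem xOM : OM_stmt := OM

theorem xPS : PS_stmt := PS xOM

theorem xBN : BN_stmt := BN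

theorem xXI : XI_stmt := XI

theorem xJB : JB_stmt := JB xOM xPS xBN xXI

theorem xDUP : DUP_stmt := DUP xOM xPS

theorem xQC : QC_stmt := QC xOM

theorem xJF : JF_stmt := JF xOM xQC

theorem xCUB : CUB_stmt := CUB xOM xPS

theorem xUNI : UNI_stmt := UNI

theorem xHAR : HAR_stmt := HAR

theorem xHAS : HAS_stmt := HAS

theorem xTJ : TJ_stmt := TJ xOM xJB xDUP xJF xCUB xHAR xHAS

theorem xTC : TC_stmt := TC

theorem xDH : DH_stmt := DH

theorem xTE : TE_stmt := TE xTJ xTC xDH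

theorem xST : ST_stmt := ST

theorem xJST : JST_stmt := JST xST

theorem xJW : JW_stmt := JW

theorem xIT : IT_stmt := IT

theorem xJH : JH_stmt := JH

theorem xJS1 : JS1_stmt := JS1 xIT xJH

theorem xM1 : M1_stmt := M1

theorem xVEX : VEX_stmt := VEX xM1 xST

theorem xR2 : R2_stmt := R2 xJST xJS1 xM1 xJW

theorem xFO1 : FO1_stmt := FO1 xR2 xJW

theorem xCST : CST_stmt := CST'

theorem xWL : WL_stmt := WL

theorem xGX : GX_stmt := GX

theorem xNPF : NPF_stmt := NPF xWL xGX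

theorem xFO : FO_stmt := FO xVEX xFO1 xCST xWL xNPF

theorem xHM : HM_stmt := HM

theorem xHW : HW_stmt := HW xHM

theorem xFOS : FOS_stmt := FOS xVEX xFO xHM xHW

theorem xRP : RP_stmt := RP

theorem xRD : RD_stmt := RD

theorem xPHD : PHD_stmt := PHD

theorem xPHV : PHV_stmt := PHV

theorem xK1 : K1_stmt := K1 xRD xPHD

theorem xK2 : K2_stmt := K2 xK1 xRP xPHD xPHV

theorem xKS : KS_stmt := KS xK1

theorem xGAM : GAM_stmt := GAM xFOS xKS xPHD

theorem xDN : DN_stmt := DN xRD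

theorem xSTAR : STAR_stmt := STAR xVEX xGAM xCST xDN xK2 xPHV xPHD

theorem xRT3 : RT3_stmt := RT3

theorem xE14 : E14_stmt := E14 xSTAR xHW xPHV

theorem xE2 : E2_stmt := E2 xSTAR xHW xK2 xRT3

theorem xSQ : SQ_stmt := SQ

theorem xF2 : F2_stmt := F2 xVEX xE2 xSQ xM1

theorem xF14 : F14_stmt := F14 xVEX xE14 xSQ xM1

theorem xRV : RV_stmt := RV

theorem xJR : JR_stmt := JR xRV

theorem xJN : JN_stmt := JN xRV xJR xJST

theorem xMA : MA_stmt := MA

theorem xMB : MB_stmt := MB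

theorem xINV : INV_stmt := INV xST

theorem xVTX : VTX_stmt := VTX xINV xRV

theorem xR2W : R2W_stmt := R2W xJN xMA xMB xINV xJST

theorem xFW1 : FW1_stmt := FW1 xR2W

theorem xM3 : M3_stmt := M3

theorem xVM : VM_stmt := VM' xST xM3

theorem xFW2 : FW2_stmt := FW2 xVTX xFW1 xCST xNPF xWL xGX xVM

theorem xVT : VT_stmt := VT xVEX xRV

theorem xFD : FD_stmt := FD xFO xFW2 xPHD

theorem xSW : SW_stmt := SW xFD xCST xNPF xWL xVEX xVTX xVT xE14 xPHV xPHD

theorem xE8 : E8_stmt := E8 xSW xE2 xPHV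

theorem xF8 : F8_stmt := F8 xVEX xVTX xE8 xSQ xST

theorem fullA {p : ℕ} [Fact p.Prime] (h3 : 3 < p) :
    CongrSq p (∑ k ∈ Finset.range p, D k (-3) ^ 3)
      (∑ k ∈ Finset.range p, (-1) ^ k * D k (-1 / 4) ^ 3) ∧
    CongrSq p (∑ k ∈ Finset.range p, (-1) ^ k * D k (-1 / 4) ^ 3)
      ((legendreSym p (-2) : ℚ) * ∑ k ∈ Finset.range p, (-1) ^ k * D k (1 / 8) ^ 3) ∧
    (p % 3 = 1 → ∀ x y : ℤ, (p : ℤ) = x ^ 2 + 3 * y ^ 2 →
      CongrSq p (∑ k ∈ Finset.range p, D k (-3) ^ 3)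
        ((legendreSym p (-1) : ℚ) * (4 * (x : ℚ) ^ 2 - 2 * (p : ℚ)))) ∧
    (p % 3 = 2 → CongrSq p (∑ k ∈ Finset.range p, D k (-3) ^ 3) 0) :=
  fullA_of TR1 TR2 PAR xTE xUNI xF2 xF14 xF8 xST xM3 h3

end Pool.Agent.helper60.DA
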