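import Pool.Agent.helper60.DK.ALL

/-!
# Definitions for the full part (a) of MP_fb2c2a (primes `p = 6 f + 1`)
-/

namespace Pool.Agent.helper60.DA

open Polynomial Finset Pool.Agent.helper60.DK

/-- integer Fermat quotient `(a^(p-1) - 1) / p` -/
def fq (p : ℕ) (a : ℤ) : ℤ := (a ^ (p - 1) - 1) / (p : ℤ)

/-- Fermat quotient of 2 modulo `p` -/
def Q2 (p : ℕ) : ZMod p := ((fq p 2 : ℤ) : ZMod p)

/-- Fermat quotient of 3 modulo `p` -/
def Q3 (p : ℕ) : ZMod p := ((fq p 3 : ℤ) : ZMod p)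

/-- `ph a b = ((a+b)^p - a^p - b^p) / p`, in any commutative ring -/
def ph {R : Type*} [CommRing R] (p : ℕ) (a b : R) : R :=
  ∑ j ∈ Finset.Ioo 0 p, ((p.choose j / p : ℕ) : R) * a ^ j * b ^ (p - j)

/-- Teichmüller lift modulo `p^2` -/
def om (p : ℕ) (t : ZMod p) : ZMod (p ^ 2) := ((t.val : ℕ) : ZMod (p ^ 2)) ^ p

/-- multiplication by `p` as a map `ZMod p → ZMod (p^2)` -/
def lp (p : ℕ) (x : ZMod p) : ZMod (p ^ 2) := (p : ZMod (p ^ 2)) * ((x.val : ℕ) : ZMod (p ^ 2))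

/-- the quadratic character with values in `ZMod (p^2)` -/
noncomputable def qc (p : ℕ) [Fact p.Prime] (t : ZMod p) : ZMod (p ^ 2) :=
  ((quadraticChar (ZMod p) t : ℤ) : ZMod (p ^ 2))

/-- `a_k = C(2k,k)^2 C(3k,k)` -/
def ak (k : ℕ) : ℤ := (k.centralBinom : ℤ) ^ 2 * ((3 * k).choose k : ℤ)

section
variable (p : ℕ) [hp : Fact p.Prime]

theorem fq_spec {p : ℕ} [hp : Fact p.Prime] {a : ℤ} (h : ¬ (p : ℤ) ∣ a) :
    (p : ℤ) * fq p a = a ^ (p - 1) - 1 := by
  unfold fq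
  apply Int.mul_ediv_cancel'
  have h1 : ((a : ℤ) : ZMod p) ≠ 0 := by
    rw [Ne, int_dvd_iff]; exact h
  have h2 := ZMod.pow_card_sub_one_eq_one h1
  rw [← int_dvd_iff]
  push_cast
  rw [h2]; ring

theorem ph_spec {R : Type*} [CommRing R] (a b : R) :
    (p : R) * ph p a b = (a + b) ^ p - a ^ p - b ^ p := by
  have hp0 := hp.out.pos
  have h1 : (a + b) ^ p = ∑ j ∈ range (p + 1), a ^ j * b ^ (p - j) * ((p.choose j : ℕ) : R) :=
    add_pow a b p
  have h2 : ∑ j ∈ range (p + 1), a ^ j * b ^ (p - j) * ((p.choose j : ℕ) : R)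
      = b ^ p + (∑ j ∈ Finset.Ioo 0 p, a ^ j * b ^ (p - j) * ((p.choose j : ℕ) : R)) + a ^ p := by
    rw [sum_range_succ]
    have e : range p = insert 0 (Finset.Ioo 0 p) := by
      ext x
      simp only [mem_range, mem_insert, mem_Ioo]
      omega
    rw [e, sum_insert (by simp)]
    simp
  rw [h1, h2]
  unfold ph
  rw [mul_sum]
  have h3 : ∀ j ∈ Finset.Ioo 0 p, (p : R) * (((p.choose j / p : ℕ) : R) * a ^ j * b ^ (p - j))
      = a ^ j * b ^ (p - j) * ((p.choose j : ℕ) : R) := by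
    intro j hj
    have hj' := mem_Ioo.mp hj
    have hd : p ∣ p.choose j := hp.out.dvd_choose_self (by omega) hj'.2
    have : ((p.choose j : ℕ) : R) = (p : R) * ((p.choose j / p : ℕ) : R) := by
      rw [← Nat.cast_mul, Nat.mul_div_cancel' hd]
    rw [this]; ring
  rw [sum_congr rfl h3]
  ring

theorem map_ph {R S : Type*} [CommRing R] [CommRing S] (f : R →+* S) (a b : R) :
    f (ph p a b) = ph p (f a) (f b) := by
  unfold ph
  rw [map_sum]
  apply sum_congr rfl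
  intro j _
  simp

end

end Pool.Agent.helper60.DA
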