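import Pool.Agent.helper60.DA.Defs

/-!
# Lemmas on `lp`
-/

namespace Pool.Agent.helper60.DA

open Polynomial Finset Pool.Agent.helper60.DK

/-- reduction `ZMod (p^2) → ZMod p` -/
def rd (p : ℕ) : ZMod (p ^ 2) →+* ZMod p := ZMod.castHom (dvd_pow_self p two_ne_zero) (ZMod p)

section
variable {p : ℕ} [hp : Fact p.Prime]

theorem rd_natCast (n : ℕ) : rd p (n : ZMod (p ^ 2)) = (n : ZMod p) := map_natCast _ n

theorem rd_intCast (n : ℤ) : rd p (n : ZMod (p ^ 2)) = (n : ZMod p) := map_intCast _ n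

theorem neZero_sq : NeZero (p ^ 2) := ⟨pow_ne_zero _ hp.out.ne_zero⟩

theorem p_mul_eq_zero_iff (n : ℤ) :
    (p : ZMod (p ^ 2)) * (n : ZMod (p ^ 2)) = 0 ↔ (n : ZMod p) = 0 := by
  have hp0 : (p : ℤ) ≠ 0 := by exact_mod_cast hp.out.ne_zero
  have e : (p : ZMod (p ^ 2)) * (n : ZMod (p ^ 2)) = (((p : ℤ) * n : ℤ) : ZMod (p ^ 2)) := by
    push_cast; ring
  rw [e, ZMod.intCast_zmod_eq_zero_iff_dvd, int_dvd_iff]
  have e2 : ((p ^ 2 : ℕ) : ℤ) = (p : ℤ) * (p : ℤ) := by push_cast; ring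
  rw [e2]
  exact mul_dvd_mul_iff_left hp0

theorem exists_int (z : ZMod (p ^ 2)) : ∃ n : ℤ, (n : ZMod (p ^ 2)) = z :=
  ZMod.intCast_surjective z

/-- `lp` of an integer -/
theorem lp_intCast (n : ℤ) : lp p (n : ZMod p) = (p : ZMod (p ^ 2)) * (n : ZMod (p ^ 2)) := by
  unfold lp
  haveI : NeZero p := ⟨hp.out.ne_zero⟩
  have h : (p : ZMod (p ^ 2)) * ((((n : ZMod p).val : ℤ) - n : ℤ) : ZMod (p ^ 2)) = 0 := by
    rw [p_mul_eq_zero_iff]
    push_cast
    simp
  push_cast at h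
  linear_combination h

theorem lp_natCast (n : ℕ) : lp p (n : ZMod p) = (p : ZMod (p ^ 2)) * (n : ZMod (p ^ 2)) := by
  have := lp_intCast (p := p) (n : ℤ)
  push_cast at this
  exact this

/-- multiplication by `p` factors through reduction -/
theorem p_mul (z : ZMod (p ^ 2)) : (p : ZMod (p ^ 2)) * z = lp p (rd p z) := by
  obtain ⟨n, rfl⟩ := exists_int z
  rw [rd_intCast, lp_intCast]

theorem exists_rd (x : ZMod p) : ∃ n : ℤ, (n : ZMod p) = x := ZMod.intCast_surjective x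

theorem lp_add (x y : ZMod p) : lp p (x + y) = lp p x + lp p y := by
  obtain ⟨a, rfl⟩ := exists_rd x
  obtain ⟨b, rfl⟩ := exists_rd y
  rw [← Int.cast_add, lp_intCast, lp_intCast, lp_intCast]; push_cast; ring

theorem lp_zero : lp p 0 = 0 := by
  have := lp_intCast (p := p) 0
  simpa using this

theorem lp_one : lp p 1 = (p : ZMod (p ^ 2)) := by
  have := lp_intCast (p := p) 1
  simpa using this

theorem lp_neg (x : ZMod p) : lp p (-x) = -lp p x := by
  have := lp_add (p := p) x (-x)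
  rw [add_neg_cancel, lp_zero] at this
  linear_combination -this

theorem lp_sub (x y : ZMod p) : lp p (x - y) = lp p x - lp p y := by
  rw [sub_eq_add_neg, lp_add, lp_neg]; ring

theorem mul_lp (z : ZMod (p ^ 2)) (x : ZMod p) : z * lp p x = lp p (rd p z * x) := by
  obtain ⟨a, rfl⟩ := exists_int z
  obtain ⟨b, rfl⟩ := exists_rd x
  rw [rd_intCast, ← Int.cast_mul, lp_intCast, lp_intCast]; push_cast; ring

theorem lp_mul_lp (x y : ZMod p) : lp p x * lp p y = 0 := by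
  obtain ⟨a, rfl⟩ := exists_rd x
  obtain ⟨b, rfl⟩ := exists_rd y
  rw [lp_intCast, lp_intCast]
  have h : (p : ZMod (p ^ 2)) * (p : ZMod (p ^ 2)) = 0 := by
    have : ((p ^ 2 : ℕ) : ZMod (p ^ 2)) = 0 := ZMod.natCast_self _
    push_cast at this
    rw [← this]; ring
  linear_combination (a : ZMod (p ^ 2)) * b * h

theorem lp_eq_zero {x : ZMod p} (h : lp p x = 0) : x = 0 := by
  obtain ⟨a, rfl⟩ := exists_rd x
  rw [lp_intCast, p_mul_eq_zero_iff] at h
  exact h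

theorem rd_lp (x : ZMod p) : rd p (lp p x) = 0 := by
  obtain ⟨a, rfl⟩ := exists_rd x
  rw [lp_intCast, map_mul, rd_natCast]
  simp

/-- an element reducing to `0` is a multiple of `p` -/
theorem exists_lp_of_rd_eq_zero {z : ZMod (p ^ 2)} (h : rd p z = 0) : ∃ x : ZMod p, z = lp p x := by
  obtain ⟨n, rfl⟩ := exists_int z
  rw [rd_intCast, int_dvd_iff] at h
  obtain ⟨m, rfl⟩ := h
  refine ⟨(m : ZMod p), ?_⟩
  rw [lp_intCast]; push_cast; ring

theorem isUnit_of_rd_ne_zero {z : ZMod (p ^ 2)} (h : rd p z ≠ 0) : IsUnit z := by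
  obtain ⟨n, rfl⟩ := exists_int z
  rw [rd_intCast, Ne, int_dvd_iff] at h
  have hc : IsCoprime (n : ℤ) ((p ^ 2 : ℕ) : ℤ) := by
    push_cast
    apply IsCoprime.pow_right
    rw [Int.isCoprime_iff_gcd_eq_one, Int.gcd_comm]
    have hpp : Prime (p : ℤ) := Nat.prime_iff_prime_int.mp hp.out
    exact Int.isCoprime_iff_gcd_eq_one.mp
      ((Prime.coprime_iff_not_dvd hpp).mpr h)
  obtain ⟨a, b, hab⟩ := hc
  have h1 : ((a * n + b * ((p ^ 2 : ℕ) : ℤ) : ℤ) : ZMod (p ^ 2)) = 1 := by rw [hab]; simp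
  push_cast at h1
  have h0 : ((p : ZMod (p ^ 2))) ^ 2 = 0 := by
    have : ((p ^ 2 : ℕ) : ZMod (p ^ 2)) = 0 := ZMod.natCast_self _
    push_cast at this
    exact this
  rw [h0, mul_zero, add_zero] at h1
  exact IsUnit.of_mul_eq_one _ (by rw [mul_comm]; exact h1)

end

end Pool.Agent.helper60.DA
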