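import Pool.Agent.helper60.DA.Lp

/-!
# Rows dj:* (MP_fb2c2a_nt, full part (a), Jacobi sums modulo `p^2`)

Everything imported is proved.  Every row is a `Prop` below; please prove
`theorem Pool.Agent.helper60.DA.<ROW> (h : <OTHER>_stmt) ... : <ROW>_stmt` in
`Pool/Agent/<seat>/DA/<ROW>.lean` (import this file; the other rows named in the docstring may be
hypotheses), land it, lock note DONE, one line to helper60.  No `convert`/`congr!`/`native_decide`.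
Auxiliary lemmas: please give them names starting with the row name (`ROW_aux1`, ...).

Library: `om p t` (Teichmüller lift of `t : ZMod p` in `ZMod (p^2)`), `lp p x` (`p` times a lift of
`x : ZMod p`, additive, `mul_lp`, `lp_mul_lp = 0`, `lp_intCast`, `p_mul`), `rd p` (reduction ring hom),
`isUnit_of_rd_ne_zero`, `exists_lp_of_rd_eq_zero`, `fq_spec`, `Q2 p`, `Q3 p` (Fermat quotients),
`ph`, `ph_spec`, `qc p` (quadratic character with values in `ZMod (p^2)`), `ak k = C(2k,k)^2 C(3k,k)`.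
Throughout `f = p/6` and `p % 6 = 1`.
-/

namespace Pool.Agent.helper60.DA

open Polynomial Finset Pool.Agent.helper60.DK

/-- ROW dj:OM.  `(s t).val ≡ s.val t.val mod p`, and `a ≡ b mod p` implies `a^p ≡ b^p mod p^2`
(`(b + p c)^p = b^p + p * p c * ... `; `ph_spec` or `Int.ModEq`/`dvd_sub_pow_of_dvd_sub`).  The last
clause: `om p t` reduces to `t` (Fermat). -/
def OM_stmt : Prop := ∀ (p : ℕ) [Fact p.Prime], 3 < p →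
  (∀ s t : ZMod p, om p (s * t) = om p s * om p t) ∧ om p 1 = 1 ∧ om p 0 = 0 ∧
  (∀ t : ZMod p, t ≠ 0 → om p t ^ (p - 1) = 1) ∧
  (∀ z : ℤ, om p (z : ZMod p) = (z : ZMod (p ^ 2)) ^ p) ∧
  (∀ t : ZMod p, rd p (om p t) = t) ∧
  (∀ t : ZMod p, om p (1 - t) = (1 - om p t) ^ p)

/-- ROW dj:PS (power sums; hyp `OM_stmt`).  If `(p-1) ∣ m` all terms are 1.  Otherwise take a generator
`g` of the units of `ZMod p`: `g^m ≠ 1`, so `om g ^ m - 1` is a unit (`isUnit_of_rd_ne_zero`), and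
`t ↦ g t` permutes the nonzero elements. -/
def PS_stmt : Prop := ∀ (p : ℕ) [Fact p.Prime], 3 < p → ∀ m : ℕ,
  ∑ t ∈ univ.erase (0 : ZMod p), om p t ^ m
    = if (p - 1) ∣ m then ((p : ZMod (p ^ 2)) - 1) else 0

/-- ROW dj:BN (binomials modulo `p^2`).  In `ℤ[X]`: `(1+X)^p = 1 + X^p + p φ`, `φ = ∑_{0<j<p} (C(p,j)/p) X^j`
(`ph_spec`), so modulo `p^2`: `(1+X)^(N p) = (1+X^p)^N + N p φ (1+X^p)^(N-1)`; compare the coefficient of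
`X^(q p + r)`; `C(p,r)/p ≡ (-1)^(r-1)/r (mod p)`. -/
def BN_stmt : Prop := ∀ (p : ℕ) [Fact p.Prime], 3 < p → ∀ N q : ℕ, 1 ≤ N →
  (((N * p).choose (q * p) : ℕ) : ZMod (p ^ 2)) = ((N.choose q : ℕ) : ZMod (p ^ 2)) ∧
  ∀ r : ℕ, 0 < r → r < p → (((N * p).choose (q * p + r) : ℕ) : ZMod (p ^ 2))
    = lp p ((N : ZMod p) * (r : ZMod p)⁻¹ * (-1) ^ (r - 1) * (((N - 1).choose q : ℕ) : ZMod p))

/-- ROW dj:XI (an identity, by induction on `c`).  Over a field where `1, ..., 2c` are not 0: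
`∑_{i<c} (-1)^(c-i-1) C(2c-1,i)/(c-i) = C(2c,c) ((H_{2c} - H_c)/2 + 1/(4c))`.
Proof: `C(2c-1,i) = C(2c,i) (1/2 + (c-i)/(2c))`; `∑_{i<c} (-1)^i C(2c,i) = (-1)^(c-1) C(2c-1,c-1)`; and
`F(c) := ∑_{j=1}^c (-1)^(j-1) a(c,j)/j = H_{2c} - H_c`, `a(c,j) = c!^2/((c-j)!(c+j)!)`, because
`a(c,j) - a(c-1,j) = a(c,j) j^2/c^2`, `F(c) - F(c-1) = c^(-2) ∑ (-1)^(j-1) j a(c,j)` and with
`G_j = (-1)^j (c+j)(j-1/2) a(c,j)/(2c-1)`: `G_{j+1} - G_j = (-1)^(j-1) j a(c,j)`, so this sum is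
`-G_1 = c/(2(2c-1))`, and `F(c)-F(c-1) = 1/(2c(2c-1)) = 1/(2c-1) - 1/(2c)`. -/
def XI_stmt : Prop := ∀ (K : Type) [Field K] (c : ℕ), 1 ≤ c →
  (∀ k : ℕ, 1 ≤ k → k ≤ 2 * c → (k : K) ≠ 0) →
  ∑ i ∈ range c, (-1) ^ (c - i - 1) * (((2 * c - 1).choose i : ℕ) : K) * (((c - i : ℕ) : K))⁻¹
    = (((2 * c).choose c : ℕ) : K)
      * ((∑ k ∈ Finset.Ioc c (2 * c), (k : K)⁻¹) / 2 + (4 * (c : K))⁻¹)

/-- ROW dj:JB (hyps `OM_stmt`, `PS_stmt`, `BN_stmt`, `XI_stmt`).  `1 ≤ c ≤ h = (p-1)/2`: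
`om(1-t) = (1 - om t)^p`, expand `(1 - om t)^(2cp)` and sum over `t` with PS: only `j = c + (p-1) i`,
`0 ≤ i ≤ 2c` survive (`j ≤ 2cp` and `c < p-1`), sign `(-1)^j = (-1)^c`, factor `p-1`.
`i = c`: `j = cp`, `C(2cp,cp) = C(2c,c)`.  `i < c`: `j = i p + (c-i)`; `i > c`:
`j = (i-1) p + (p-(i-c))`, `1/(p-(i-c)) = -1/(i-c)`, `(-1)^(p-(i-c)-1) = (-1)^(i-c)`,
`C(2c-1,i-1) = C(2c-1,2c-i)`; the two halves are equal (`i ↦ 2c-i`), so the sum is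
`(p-1)(-1)^c (C(2c,c) + lp(4c Ξ))`, `Ξ` = the sum in XI (over `ZMod p`), hence
`(p-1)(-1)^c C(2c,c)(1 + p + lp(2c ΔH)) = -(-1)^c C(2c,c)(1 + lp(2c ΔH))`. -/
def JB_stmt : Prop := ∀ (p : ℕ) [Fact p.Prime], 3 < p → ∀ c : ℕ, 1 ≤ c → c ≤ hh p →
  ∑ t ∈ univ.erase (0 : ZMod p), om p t ^ (p - 1 - c) * om p (1 - t) ^ (2 * c)
    = -((-1) ^ c * (((2 * c).choose c : ℕ) : ZMod (p ^ 2))
      * (1 + lp p (2 * (c : ZMod p) * ∑ k ∈ Finset.Ioc c (2 * c), (k : ZMod p)⁻¹)))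

/-- ROW dj:DUP (hyps `OM_stmt`, `PS_stmt`).  With `A = om^(p-1-c)` (`= om^(-c)` on units): the substitution
`t = s/(s-1)` (an involution of `ZMod p \ {0,1}`; `1-t = 1/(1-s)`) gives
`∑ A(t) om(1-t)^(2c) = om(-1)^c ∑ A(s) A(1-s)`, `om(-1) = -1`; the number of `t` with `t(1-t) = v` is
`1 + χ(1-4v)` and `∑ A(v) = 0` (PS, `1 ≤ c < p-1`), so `∑ A(t(1-t)) = ∑ A(v) χ(1-4v)`, and `v = u/4`. -/
def DUP_stmt : Prop := ∀ (p : ℕ) [Fact p.Prime], 3 < p → ∀ c : ℕ, 1 ≤ c → c ≤ hh p →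
  ∑ t ∈ univ.erase (0 : ZMod p), om p t ^ (p - 1 - c) * om p (1 - t) ^ (2 * c)
    = (-1) ^ c * om p 4 ^ c
      * ∑ t ∈ univ.erase (0 : ZMod p), om p t ^ (p - 1 - c) * qc p (1 - t)

/-- ROW dj:QC (hyp `OM_stmt`).  Euler: `om(t)^((p-1)/2)` squares to 1 and reduces to `χ(t)` mod `p`, and
`x^2 = 1`, `x ≡ ±1 mod p` gives `x = ±1` (the other factor is a unit). -/
def QC_stmt : Prop := ∀ (p : ℕ) [Fact p.Prime], 3 < p → ∀ t : ZMod p, t ≠ 0 →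
  om p t ^ (hh p) = qc p t

/-- ROW dj:JF (hyps `OM_stmt`, `QC_stmt`).  `p = 6f+1`.  `∑ om(t)^(5f) χ(1-t) = ∑ χ(t) om(1-t)^(5f)`
(`t ↦ 1-t`), then `t = s/(s-1)`: `= χ(-1) ∑ χ(s) χ(1-s) om(1-s)^(-5f)`, `χ = om^(3f)`, so
`χ(1-s) om(1-s)^(-5f) = om(1-s)^(3f+f) = om(1-s)^(4f)`; then `s ↦ 1-s`. -/
def JF_stmt : Prop := ∀ (p : ℕ) [Fact p.Prime], 3 < p → p % 6 = 1 →
  ∑ t ∈ univ.erase (0 : ZMod p), om p t ^ (5 * (p / 6)) * qc p (1 - t)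
    = qc p (-1) * ∑ t ∈ univ.erase (0 : ZMod p), om p t ^ (4 * (p / 6)) * qc p (1 - t)

/-- ROW dj:CUB (hyps `OM_stmt`, `PS_stmt`).  `g` a generator of the units of `ZMod p`, `a_r` (`r = 0,1,2`)
the integer `∑_{k < p-1, k % 3 = r} χ(1 - g^k)`.  `ζ = om(g)^(4f)`: `1 + ζ + ζ^2 = 0` (ζ^3 = 1 and
`ζ - 1` is a unit), `α = ∑ om(t)^(4f) χ(1-t) = a_0 + a_1 ζ + a_2 ζ^2`,
`β = ∑ om(t)^(2f) χ(1-t) = a_0 + a_1 ζ^2 + a_2 ζ`.  Complex characters (Mathlib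
`jacobiSum_mul_jacobiSum_inv` for a cubic character and the quadratic one, values in `ℂ`) give
`a_0^2+a_1^2+a_2^2-a_0a_1-a_1a_2-a_2a_0 = p`.  Parity: each `a_r` is a sum of `2f` values `±1`, except
that `a_0` has one value `χ(0) = 0`: `a_1`, `a_2` are even.  `X = a_0 - (a_1+a_2)/2`,
`Y = (a_1-a_2)/2`: `X^2+3Y^2 = p`, `α+β = 2X`, `αβ = p`; and `β ≡ ∑ t^(2f) (1-t)^(3f) ≡ 0 mod p`
(degree `5f < p-1`), so `β^2 = 0` and `α^2 = 4X^2 - 2p`. -/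
def CUB_stmt : Prop := ∀ (p : ℕ) [Fact p.Prime], 3 < p → p % 6 = 1 →
  ∃ X Y : ℤ, X ^ 2 + 3 * Y ^ 2 = p ∧
    (∑ t ∈ univ.erase (0 : ZMod p), om p t ^ (4 * (p / 6)) * qc p (1 - t)) ^ 2
      = 4 * (X : ZMod (p ^ 2)) ^ 2 - 2 * (p : ZMod (p ^ 2))

/-- ROW dj:UNI.  `(xY-Xy)(xY+Xy) = p(Y^2-y^2)`, `p^2 = (xX+3yY)^2 + 3(xY-yX)^2` and the same with the other
sign, so `xY = ± yX`, then `x^2 = X^2`. -/
def UNI_stmt : Prop := ∀ (p : ℕ) [Fact p.Prime], 3 < p → ∀ X Y x y : ℤ,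
  X ^ 2 + 3 * Y ^ 2 = p → x ^ 2 + 3 * y ^ 2 = p → x ^ 2 = X ^ 2

/-- ROW dj:HAR.  `p = 6f+1`.  `∑_{3 ∣ j, 0<j<p} C(p,j) = (2^p-2)/3` (for `m % 6 = 1` the sum of `C(m,j)` over
`3 ∣ j` is `(2^m+1)/3`: induction on `m` with the three residue classes, period 6), and
`C(p,j)/p ≡ (-1)^(j-1)/j`: `∑_{3 ∣ j} (-1)^(j-1)/j = (2/3) Q2`; the left side is
`(1/3)(∑_{i ≤ 2f} 1/i) - 2 (1/6)(∑_{i ≤ f} 1/i) = (1/3)(H_{2f} - H_f)` (`j = 3i`, sign `-` for `i` even).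
So the sum over `f < k ≤ 2f` of `1/k` is `2 Q2`. -/
def HAR_stmt : Prop := ∀ (p : ℕ) [Fact p.Prime], 3 < p → p % 6 = 1 →
  ∑ k ∈ Finset.Ioc (p / 6) (2 * (p / 6)), (k : ZMod p)⁻¹ = 2 * Q2 p

/-- ROW dj:HAS.  `k ↦ p - k` permutes `2f < k ≤ 4f`. -/
def HAS_stmt : Prop := ∀ (p : ℕ) [Fact p.Prime], 3 < p → p % 6 = 1 →
  ∑ k ∈ Finset.Ioc (2 * (p / 6)) (2 * (2 * (p / 6))), (k : ZMod p)⁻¹ = 0

/-- ROW dj:TJ (hyps `OM JB DUP QC JF CUB HAR HAS`).  JB and DUP at `c = f` and `c = 2f` (`p-1-f = 5f`,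
`p-1-2f = 4f`), `α` = the sum of CUB:
`α^2 = C(2f,f)^2 (1 + lp(4f * 2 Q2)) / om(4)^(2f)` (JF, `qc(-1)^2 = 1`) and
`α^2 = C(4f,2f)^2 / om(4)^(4f)`; `om 4 = 4^p`, `4^(2f p) = 16^f (2^(p-1))^(4f) = 16^f (1 + lp(4f Q2))`.
So `C(2f,f)^2 = α^2 16^f (1 - lp(4f Q2))`, `C(4f,2f)^2 = α^2 256^f (1 + lp(8f Q2))`. -/
def TJ_stmt : Prop := ∀ (p : ℕ) [Fact p.Prime], 3 < p → p % 6 = 1 →
  ∃ X Y : ℤ, X ^ 2 + 3 * Y ^ 2 = p ∧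
    2 * (((2 * (p / 6)).choose (p / 6) : ℕ) : ZMod (p ^ 2)) ^ 2 * 16 ^ (p / 6)
      + (((4 * (p / 6)).choose (2 * (p / 6)) : ℕ) : ZMod (p ^ 2)) ^ 2
      = 3 * 256 ^ (p / 6) * (4 * (X : ZMod (p ^ 2)) ^ 2 - 2 * (p : ZMod (p ^ 2)))

/-- ROW dj:TC.  `n = p/3 = 2f`, `cc m k = C(2k,k) C(m,k) C(m+k,k)`, `9 n(n+1) = p^2+p-2`,
`9 * 2n(2n+1) = 4p^2-2p-2`.  `C(m,k) C(m+k,k) = ∏_{i<k} (m(m+1)-i(i+1))/(i+1)^2` and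
`9(m(m+1)-i(i+1)) = -((3i+1)(3i+2) - δ)`, `δ = p + p^2` for `m = n`, `δ = -2p+4p^2` for `m = 2n`;
`C(2k,k) C(3k,k) = ∏_{i<k} 3(3i+1)(3i+2)/(i+1)^2`.  For `k ≤ n` no factor `(3i+1)(3i+2)` (`i<k`) is
divisible by `p` and `2δ_n + δ_{2n} ≡ 0`, the linear terms cancel; for `n < k ≤ h` the factor `i = n`
is `0` for `m = n` (`cc n k = 0`), `≡ -3p` (after `9(..)`) for `m = 2n` and `3p(p+1)`... `≡ p` in
`(3i+1)(3i+2)`.  For `k > h`: `p ∣ C(2k,k)` and `p ∣ C(m,k)C(m+k,k)` (if `k ≤ 2n`). Use `cc_succ` and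
`(k+1)^3 a_{k+1} = 6(2k+1)(3k+1)(3k+2) a_k`, or clear `k!^2` (a unit). -/
def TC_stmt : Prop := ∀ (p : ℕ) [Fact p.Prime], 3 < p → p % 6 = 1 →
  (∀ k : ℕ, k ≤ hh p → 3 * (ak k : ZMod (p ^ 2))
    = (-27) ^ k * (2 * (cc (nn p) k : ZMod (p ^ 2)) + (cc (2 * nn p) k : ZMod (p ^ 2)))) ∧
  (∀ k : ℕ, hh p < k → (cc (nn p) k : ZMod (p ^ 2)) = 0 ∧ (cc (2 * nn p) k : ZMod (p ^ 2)) = 0)

/-- ROW dj:DH.  `D_{2j}(-1/2) = (-1)^j C(2j,j)/4^j` over any commutative ring with `2 v = -1`, from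
`rel_one`, `rel_two` at `-1/2` over `ℚ` (`(k+2) D_{k+2} = -(k+1) D_k`, as in
Pool/Agent/helper60/DK/HALF.lean), then clear denominators: state it first for integer polynomials
(`∑ dc (2j) k (-1)^k 2^(2j-k) = (-1)^j C(2j,j)`). -/
def DH_stmt : Prop := ∀ (R : Type) [CommRing R] (v : R), 2 * v = -1 → ∀ j : ℕ,
  4 ^ j * aeval v (Dz (2 * j)) = (-1) ^ j * (((2 * j).choose j : ℕ) : R)

/-- ROW dj:TE (hyps `TJ_stmt`, `TC_stmt`, `DH_stmt`).  `u = 1/108`, `-27 u = -1/4 = v(1+v)`, `v = -1/2`;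
`∑ cc m k (-1/4)^k = aeval (v(1+v)) (Cn m) = (aeval v (Dz m))^2` (`clausen`), `m = n = 2f` and
`m = 2n = 4f` (DH). -/
def TE_stmt : Prop := ∀ (p : ℕ) [Fact p.Prime], 3 < p → p % 6 = 1 →
  ∃ X Y : ℤ, X ^ 2 + 3 * Y ^ 2 = p ∧ ∀ u : ZMod (p ^ 2), 108 * u = 1 →
    ∑ k ∈ range (hh p + 1), (ak k : ZMod (p ^ 2)) * u ^ k
      = 4 * (X : ZMod (p ^ 2)) ^ 2 - 2 * (p : ZMod (p ^ 2))

end Pool.Agent.helper60.DA
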