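import Pool.Agent.helper60.DA.Lp

/-!
# Rows dv:* (MP_fb2c2a_nt, full part (a), the sum `S_p(x)` modulo `p^2`)

Everything imported is proved.  Every row is a `Prop` below; please prove
`theorem Pool.Agent.helper60.DA.<ROW> (h : <OTHER>_stmt) ... : <ROW>_stmt` in
`Pool/Agent/<seat>/DA/<ROW>.lean` (import this file; the other rows named in the docstring may be
hypotheses), land it, lock note DONE, one line to helper60.  No `convert`/`congr!`/`native_decide`.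
Auxiliary lemmas: please give them names starting with the row name (`ROW_aux1`, ...).

Notation: `h = hh p = (p-1)/2`, `n = nn p = p/3`, `red p : ℤ[X] → (ZMod p)[X]`, `Wp p = red p (Sz p)`
(`S_eq_W`, explicit sum in Wdef.lean), `Dz n`, `Cn n`, `clausen`, `Jop`, `Jop_Sz_dvd`, `map_Jop`,
`ph p a b = ((a+b)^p - a^p - b^p)/p` (`ph_spec`, `map_ph`), `Q2 p`, `Q3 p`, `fq_spec`, `two_hh`, `four_ne`,
`cast_ne_zero_of_lt`, `natDegree_Wp`, `Wp_coeff_zero`, `Wp_eval_neg_one`.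
-/

namespace Pool.Agent.helper60.DA

open Polynomial Finset Pool.Agent.helper60.DK

/-! ### objects -/

/-- truncation of `S_p` to degree `3h` -/
noncomputable def St (p : ℕ) : ℤ[X] := ∑ i ∈ range (3 * hh p + 1), C ((Sz p).coeff i) * X ^ i

/-- `H(t) = ∑_{k ≤ h} t_k 16^(h-k) X^(2k) (1+X)^(3(h-k))` -/
noncomputable def Hh (h : ℕ) (t : ℕ → ℤ) : ℤ[X] :=
  ∑ k ∈ range (h + 1), C (t k * 16 ^ (h - k)) * (X ^ (2 * k) * (1 + X) ^ (3 * (h - k)))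

/-- `16^h (1+X)^(3h) T(X^2/(16(1+X)^3))` -/
noncomputable def S1 (p : ℕ) : ℤ[X] := Hh (hh p) ak

/-- coefficient of `u^m` in `(1-108u)(2 T θ²T - (θT)²) - 108 u T θT - 24 u T²`, `T = ∑_{k ≤ h} t_k u^k` -/
def Iq (h : ℕ) (t : ℕ → ℤ) (m : ℕ) : ℤ :=
  ∑ i ∈ range (h + 1), ∑ j ∈ range (h + 1), t i * t j *
    ((if i + j = m then 2 * (j : ℤ) ^ 2 - i * j else 0)
      - (if i + j + 1 = m then 216 * (j : ℤ) ^ 2 - 108 * i * j + 108 * j + 24 else 0))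

/-- `V` is the quotient `(16^h S - S1)/p` -/
def IsV (p : ℕ) (V : ℤ[X]) : Prop := C ((16 : ℤ) ^ hh p) * St p = S1 p + C (p : ℤ) * V

/-- `P = (1+4X)^h W` -/
noncomputable def Pp (p : ℕ) [Fact p.Prime] : (ZMod p)[X] := (1 + 4 * X) ^ hh p * Wp p

/-- the associated polynomials `R_n` (second kind) -/
noncomputable def Rn (p : ℕ) [Fact p.Prime] : ℕ → (ZMod p)[X]
  | 0 => 0
  | 1 => 2
  | (k + 2) => C (((k : ZMod p) + 2)⁻¹) * (C (2 * (k : ZMod p) + 3) * (1 + 2 * X) * Rn p (k + 1)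
      - C ((k : ZMod p) + 1) * Rn p k)

/-- `K = D_n ℓ - X^p R_n`, `ℓ = ((1+X)^p - 1 - X^p)/p` -/
noncomputable def Kp (p : ℕ) [Fact p.Prime] : (ZMod p)[X] :=
  red p (Dz (nn p)) * ph p X 1 - X ^ p * Rn p (nn p)

/-- `y = -(s-1)^2 (s+2)/4` -/
noncomputable def ys (p : ℕ) [Fact p.Prime] : (ZMod p)[X] := C (-1 / 4) * ((X - 1) ^ 2 * (X + 2))

/-- `D_n(y(s))` -/
noncomputable def Ds (p : ℕ) [Fact p.Prime] : (ZMod p)[X] := (red p (Dz (nn p))).comp (ys p)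

/-- `K(y(s))` -/
noncomputable def Ks (p : ℕ) [Fact p.Prime] : (ZMod p)[X] := (Kp p).comp (ys p)

/-- `(4-s^2)^d f((s^2-1)/(4-s^2))` -/
noncomputable def hm {R : Type*} [CommRing R] (d : ℕ) (f : R[X]) : R[X] :=
  ∑ i ∈ range (d + 1), C (f.coeff i) * ((X ^ 2 - 1) ^ i * (4 - X ^ 2) ^ (d - i))

/-! ### rows -/

/-- ROW dv:ST.  `(Sz p).coeff i ≡ 0 mod p^2` for `i > 3h`: the coefficient of `X^i` in `D_k^3` is a sum of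
`dc k a * dc k b * dc k c`, `a+b+c = i`; `p ∣ dc k a` if `k < p`, `a ≥ p-k` (`dc_zero_mod`).  If `k ≤ h`:
`3k < i`.  If `k > h`: with at most one index `≥ p-k` the sum of the indices is
`≤ k + 2(p-1-k) < 3h`; so two of the factors are divisible by `p`. -/
def ST_stmt : Prop := ∀ (p : ℕ) [Fact p.Prime], 5 ≤ p → ∃ Z : ℤ[X],
  Sz p = St p + C ((p : ℤ) ^ 2) * Z

/-- ROW dv:JST (hyp `ST_stmt`).  `Jop (y + p^2 z) ≡ Jop y mod p^2`, `Jop_Sz_dvd`. -/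
def JST_stmt : Prop := ∀ (p : ℕ) [Fact p.Prime], 7 ≤ p → ∃ Z : ℤ[X],
  Jop (St p) = C ((p : ℤ) ^ 2) * Z

/-- ROW dv:JW.  Reduce `Jop_Sz_dvd` modulo `p` (`map_Jop`, `S_eq_W`). -/
def JW_stmt : Prop := ∀ (p : ℕ) [Fact p.Prime], 7 ≤ p → Jop (Wp p) = 0

/-- ROW dv:IT.  `T = ∑_{k ≤ h} a_k u^k ∈ ℤ[u]`, `θ = u d/du`, `I(T)` as in `Iq`; `θ I(T) = 2 T L(T)` with
`L(T) = (1-108u) θ³T - 162 u θ²T - 78 u θT - 12 u T` (product rule), and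
`(k+1)^3 a_{k+1} = 6(2k+1)(3k+1)(3k+2) a_k` gives `L(T) = -6(2h+1)(3h+1)(3h+2) a_h u^(h+1)`, `2h+1 = p`,
`p ∣ a_h` (`p ∣ C(3h,h)`): so `m I_m ≡ 0 mod p^2`, fine for `m < p`; for `m = p = 2h+1` directly
`I_m = -12(3h+1)(3h+2) a_h^2`; for `m > p` it is 0. (Or work with the double sums.) -/
def IT_stmt : Prop := ∀ (p : ℕ) [Fact p.Prime], 5 ≤ p → ∀ m : ℕ, (p : ℤ) ^ 2 ∣ Iq (hh p) ak m

/-- ROW dv:JH (identity in `ℤ[X]`, every `h`, `t`).  With `m_k = 16^(h-k) X^(2k) (1+X)^(3(h-k))`,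
`λ_k = 2k + (3h-k)X`: `X(1+X) m_k' = λ_k m_k`, `X²(1+X)² m_k'' = (λ_k² + X(1+X)(3h-k) - (1+2X)λ_k) m_k`.
Both sides are double sums of `t_i t_j m_i m_j` times a polynomial (on the right: `I_m` contributes
`16(1+X)^3 (2j²-ij) - X²(216j²-108ij+108j+24)`, because
`16^(2h+1-m) X^(2m) (1+X)^(3(2h+1-m)) = 16(1+X)^3 m_i m_j` if `m = i+j`, `= X² m_i m_j` if `m = i+j+1`);
after symmetrising in `i,j` the two polynomials are equal (`ring`). Checked numerically. -/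
def JH_stmt : Prop := ∀ (h : ℕ) (t : ℕ → ℤ), Jop (Hh h t)
  = ∑ m ∈ range (2 * h + 2), C (Iq h t m * 16 ^ (2 * h + 1 - m))
        * (X ^ (2 * m) * (1 + X) ^ (3 * (2 * h + 1 - m)))
    - C (9 * (2 * (h : ℤ) + 1) ^ 2 + 12 * (2 * (h : ℤ) + 1)) * (X ^ 2 * (1 + 4 * X) * Hh h t ^ 2)
    + C (12 * (2 * (h : ℤ) + 1)) * (X ^ 2 * (1 + X) * (1 + 4 * X) * (Hh h t * derivative (Hh h t)))
    + C (12 * (2 * (h : ℤ) + 1)) * (X * (1 + 8 * X + 10 * X ^ 2) * Hh h t ^ 2)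

/-- ROW dv:JS1 (hyps `IT_stmt`, `JH_stmt`; `p = 2h+1`). -/
def JS1_stmt : Prop := ∀ (p : ℕ) [Fact p.Prime], 5 ≤ p → ∃ Z : ℤ[X],
  Jop (S1 p) = C (12 * (p : ℤ)) * (X * (1 + X) * (X * (1 + 4 * X) * (S1 p * derivative (S1 p))
    + (1 + 6 * X) * S1 p ^ 2)) + C ((p : ℤ) ^ 2) * Z

/-- ROW dv:M1.  `16^(h-k) = 16^(-k)` mod `p`, and `a_k ≡ (-27)^k cc(n,k)` mod `p` for `k ≤ h` (both satisfy the same
recurrence: `cc_succ`, `nine_nK`, `(k+1)^3 a_{k+1} = 6(2k+1)(3k+1)(3k+2) a_k`), `cc(n,k) = 0` for `k > n`. -/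
def M1_stmt : Prop := ∀ (p : ℕ) [Fact p.Prime], 5 ≤ p → red p (S1 p) = Wp p

/-- ROW dv:VEX (hyps `M1_stmt`, `ST_stmt`): existence (reduce mod `p`: `S_eq_W`, `16^h = 1`), degree and
constant term (`(St p).coeff 0 = 1` by `Sz_coeff_zero`, `(S1 p).coeff 0 = 16^h`; degrees `≤ 3h`). -/
def VEX_stmt : Prop := ∀ (p : ℕ) [Fact p.Prime], 5 ≤ p → (∃ V : ℤ[X], IsV p V) ∧
  ∀ V : ℤ[X], IsV p V → V.natDegree ≤ 3 * hh p ∧ V.coeff 0 = 0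

/-- ROW dv:R2 (hyps `JST_stmt`, `JS1_stmt`, `M1_stmt`, `JW_stmt`).  `Jop (C(16^h) St) ≡ 0 mod p^2`, and
`Jop (S1 + pV) = Jop S1 + p B(S1,V) + p^2 Jop V`, `B` the polarisation; cancel `p`, reduce. -/
def R2_stmt : Prop := ∀ (p : ℕ) [Fact p.Prime], 7 ≤ p → ∀ V : ℤ[X], IsV p V →
  4 * X ^ 2 * (1 + X) ^ 2 * (1 + 4 * X) *
      (2 * (Wp p * derivative (derivative (red p V))) + 2 * (red p V * derivative (derivative (Wp p)))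
        - 2 * (derivative (Wp p) * derivative (red p V)))
    + 8 * X * (1 + X) * (1 + 8 * X + 10 * X ^ 2)
      * (Wp p * derivative (red p V) + red p V * derivative (Wp p))
    + 2 * (12 * X + 51 * X ^ 2 + 36 * X ^ 3) * (Wp p * red p V)
    + 12 * X * (1 + X) * (X * (1 + 4 * X) * (Wp p * derivative (Wp p)) + (1 + 6 * X) * Wp p ^ 2) = 0

/-- the left side of (FO) -/
noncomputable def Th (p : ℕ) [Fact p.Prime] (v : (ZMod p)[X]) : (ZMod p)[X] :=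
  X * ((1 + X) * (derivative v * Wp p - v * derivative (Wp p)) + C (3 / 2) * Wp p ^ 2)

/-- ROW dv:FO1 (hyps `R2_stmt`, `JW_stmt`).  With `v = red p V`, `W = Wp p`, `Θ = Th p v`:
`8X(1+X) * [(1+4X)(Θ'W - ΘW') + 2ΘW] = W * (R2) - 2 v * Jop W` (identity, `ring`), cancel `8X(1+X)`;
multiply by `(1+4X)^h`, `4h = -2`: `(1+4X)(Θ'P - ΘP') = 0`. -/
def FO1_stmt : Prop := ∀ (p : ℕ) [Fact p.Prime], 7 ≤ p → ∀ V : ℤ[X], IsV p V →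
  derivative (Th p (red p V)) * Pp p = Th p (red p V) * derivative (Pp p)

/-- ROW dv:CST (pure).  `d = gcd(Θ,P)`, `Θ = dθ`, `P = dπ`, coprime; `θ'π = θπ'` so `π ∣ π'`, `π' = 0`,
`π = expand p π₀ = π₀^p` (over `ZMod p`), degree `< 2p`: `π₀` constant or linear; linear would give
`(X-a)^p ∣ P`.  So `P ∣ Θ`, `Θ = cP`, `c' = 0`, `c = expand p g` (`expand_contract`). -/
def CST_stmt : Prop := ∀ (p : ℕ) [Fact p.Prime] (T P : (ZMod p)[X]), P ≠ 0 → P.natDegree < 2 * p →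
  (∀ a : ZMod p, ¬ (X - C a) ^ p ∣ P) → derivative T * P = T * derivative P →
  ∃ g : (ZMod p)[X], T = expand (ZMod p) p g * P

/-- ROW dv:WL.  Top coefficients and values of `W = Wp p`: `W_{3h} = 1` (only `k = 0`); `W(-1/4) ≠ 0`
for `p % 3 = 1` (`= (3/4)^(3h) D_n(-1/2)^2`, see `WF` in Pool/Agent/helper60/DK/WF.lean and `half_data` in
HALF.lean, `n` even). -/
def WL_stmt : Prop := ∀ (p : ℕ) [Fact p.Prime], 5 ≤ p → (Wp p).coeff (3 * hh p) = 1 ∧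
  (p % 3 = 1 → (Wp p).eval (-1 / 4) ≠ 0)

/-- ROW dv:GX.  `p % 3 = 1`: `3(h-k) = h + 3(n-k)` for `k ≤ n`; `Wp p = (1+X)^h G`,
`G(-1) = bb n = cc(n,n)(-27/16)^n ≠ 0` (`cc(n,n) = C(2n,n)^2`, `2n < p`). -/
def GX_stmt : Prop := ∀ (p : ℕ) [Fact p.Prime], 5 ≤ p → p % 3 = 1 → ∃ G : (ZMod p)[X],
  Wp p = (1 + X) ^ hh p * G ∧ G.eval (-1) ≠ 0

/-- ROW dv:NPF (hyps `WL_stmt`, `GX_stmt`).  `a = -1/4`: `(X+1/4)^p` is coprime to `W`, and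
`(1+4X)^h` has degree `h < p`.  Else `(X-a)^p ∣ W`: `a = 0`: `W(0) = 1`; `a = -1`: GX; other `a`:
`W(a) = W'(a) = W''(a) = 0` contradicts `second_ne` (Super.lean, with `S_eq_W`). -/
def NPF_stmt : Prop := ∀ (p : ℕ) [Fact p.Prime], 7 ≤ p → p % 3 = 1 → ∀ a : ZMod p,
  ¬ (X - C a) ^ p ∣ Pp p

/-- ROW dv:FO (hyps `VEX FO1 CST WL NPF`).  `Θ = expand g * P`; `natDegree Θ ≤ 6h+1` with coefficient
`3/2` at `6h+1` (the coefficient of `X^(6h-1)` in `v'W - vW'` is 0), `natDegree P = 4h = 2p-2`,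
leading coefficient `4^h = 1`; so `g = g0 + g1 X`, `g0 = 0` (value at 0), `g1 = 3/2`. -/
def FO_stmt : Prop := ∀ (p : ℕ) [Fact p.Prime], 7 ≤ p → p % 3 = 1 → ∀ V : ℤ[X], IsV p V →
  Th p (red p V) = C (3 / 2) * X ^ p * Pp p

/-- ROW dv:HM (pure).  Homogenisation: multiplicative, values, derivative. -/
def HM_stmt : Prop := ∀ (R : Type) [CommRing R],
  (∀ (a b : ℕ) (f g : R[X]), f.natDegree ≤ a → g.natDegree ≤ b → hm (a + b) (f * g) = hm a f * hm b g) ∧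
  (∀ (a : ℕ) (f g : R[X]), hm a (f + g) = hm a f + hm a g) ∧
  (∀ (a : ℕ) (c : R) (f : R[X]), hm a (C c * f) = C c * hm a f) ∧
  (hm 1 (X : R[X]) = X ^ 2 - 1 ∧ hm 1 (1 + X : R[X]) = 3 ∧ hm 1 (1 + 4 * X : R[X]) = 3 * X ^ 2) ∧
  (∀ (d : ℕ) (f : R[X]), f.natDegree ≤ d + 1 → (4 - X ^ 2) * derivative (hm (d + 1) f)
    = 6 * X * hm d (derivative f) - 2 * ((d : R[X]) + 1) * X * hm (d + 1) f)

/-- ROW dv:HW (hyp `HM_stmt`).  Termwise: `hm (3h) (ff p k) = (X²-1)^(2k) 3^(3(h-k)) (4-X²)^k`, and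
`27^(-k) (-27/16)^k ((X²-1)²(4-X²))^k = (y(1+y))^k`, `y = ys p`, `1 + y = (2-X)(X+1)²/4`; then `clausen`. -/
def HW_stmt : Prop := ∀ (p : ℕ) [Fact p.Prime], 5 ≤ p →
  hm (3 * hh p) (Wp p) = C (3 ^ (3 * hh p)) * Ds p ^ 2

/-- ROW dv:FOS (hyps `VEX FO HM HW`).  Apply `hm (6h+1)` to FO (`p + 4h = 6h+1`):
`(X²-1)(3(V₁W₀ - V₀W₁) + (3/2)W₀²) = (3/2)(X²-1)^p (3X²)^h W₀`, `V₀ = hm (3h) v`, `V₁ = hm (3h-1) v'`, the same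
for `W`; `(4-X²)(V₀'W₀ - V₀W₀') = 6X(V₁W₀ - V₀W₁)`; put `W₀ = κ D²`, cancel `κ D (X²-1)`, `3^h = κ`
(`κ = 3^(3h)`, `3^(2h) = 1`). -/
def FOS_stmt : Prop := ∀ (p : ℕ) [Fact p.Prime], 7 ≤ p → p % 3 = 1 → ∀ V : ℤ[X], IsV p V →
  (4 - X ^ 2) * (derivative (hm (3 * hh p) (red p V)) * Ds p
      - 2 * (hm (3 * hh p) (red p V) * derivative (Ds p)))
    = C (3 * 3 ^ (3 * hh p)) * (Ds p * (X ^ p * (X ^ 2 - 1) ^ (p - 1) - X * Ds p ^ 2))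

/-- ROW dv:RP.  For `m < p`: `R_m(-1-X) = (-1)^(m+1) R_m`, `natDegree R_m ≤ m - 1` (induction). -/
def RP_stmt : Prop := ∀ (p : ℕ) [Fact p.Prime], 5 ≤ p → ∀ m : ℕ, m < p →
  (Rn p m).comp (-1 - X) = (-1) ^ (m + 1) * Rn p m ∧ (Rn p m).natDegree ≤ m - 1

/-- ROW dv:RD.  For `1 ≤ m < p`: (i) `m (D_m R_{m-1} - D_{m-1} R_m) = -2` (both satisfy
`(k+2) y_{k+2} = (2k+3)(1+2X) y_{k+1} - (k+1) y_k`: for `D` this is `rel_two (k+1)` minus `rel_one k`);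
(ii) `2X(1+X) R_m' = m((1+2X) R_m - R_{m-1}) - 2 D_m`, by induction on `m` (differentiate the
recurrence, multiply by `2X(1+X)`, use (ii) for `m` and, for `m-1`, its equivalent form
`2X(1+X) R_{m-1}' = m (R_m - (1+2X) R_{m-1}) - 2 D_{m-1}`, and `4X(1+X) = (1+2X)^2 - 1`).
With `2X(1+X) D_m' = m((1+2X) D_m - D_{m-1})` (`rel_one`) this gives the claim. -/
def RD_stmt : Prop := ∀ (p : ℕ) [Fact p.Prime], 5 ≤ p → ∀ m : ℕ, 1 ≤ m → m < p →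
  X * (1 + X) * (derivative (Rn p m) * red p (Dz m) - Rn p m * derivative (red p (Dz m)))
    = 1 - red p (Dz m) ^ 2

/-- ROW dv:PHD (pure).  `derivative (ph p X (C a)) = (X + C a)^(p-1) - X^(p-1)` over `ZMod p`: prove
`C p * derivative (ph ..) = ...` in `ℤ[X]` (`ph_spec`), cancel, map (`map_ph`); the same for
`ph p 1 (4X)`: derivative `4 (1+4X)^(p-1) - 4 X^(p-1)`. Degrees `≤ p-1`. -/
def PHD_stmt : Prop := ∀ (p : ℕ) [Fact p.Prime], 5 ≤ p →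
  (∀ a : ℤ, derivative (ph p (X : (ZMod p)[X]) (a : (ZMod p)[X]))
      = (X + (a : (ZMod p)[X])) ^ (p - 1) - X ^ (p - 1)) ∧
  derivative (ph p (1 : (ZMod p)[X]) (4 * X)) = 4 * (1 + 4 * X) ^ (p - 1) - 4 * X ^ (p - 1) ∧
  (∀ a : ℤ, (ph p (X : (ZMod p)[X]) (a : (ZMod p)[X])).natDegree ≤ p - 1) ∧
  (ph p (1 : (ZMod p)[X]) (4 * X)).natDegree ≤ p - 1

/-- ROW dv:PHV (pure).  Values of `ph` in `ZMod p` (compute `((a+b)^p - a^p - b^p)/p` in `ℤ` with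
`2^p = 2 + 2p fq 2`, `3^p = 3 + 3p fq 3`, `4^p = (2^p)^2`, ..., modulo `p^2`). -/
def PHV_stmt : Prop := ∀ (p : ℕ) [Fact p.Prime], 5 ≤ p →
  ph p (-1 : ZMod p) (-2) = -3 * Q3 p + 2 * Q2 p ∧ ph p (-1 : ZMod p) 1 = 0 ∧
  ph p (-1 : ZMod p) 2 = -2 * Q2 p ∧ ph p (1 : ZMod p) (-2) = 2 * Q2 p ∧ ph p (1 : ZMod p) 1 = 2 * Q2 p ∧
  ph p (-2 : ZMod p) (-2) = -4 * Q2 p ∧ ph p (-2 : ZMod p) 1 = 2 * Q2 p ∧ ph p (-2 : ZMod p) 2 = 0 ∧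
  ph p (1 : ZMod p) 8 = 18 * Q3 p - 24 * Q2 p ∧ ph p (2 : ZMod p) 1 = 3 * Q3 p - 2 * Q2 p ∧
  (∀ a : ZMod p, ph p 0 a = 0 ∧ ph p a 0 = 0) ∧ (∀ a : ZMod p, ph p a (-a) = 0) ∧
  ph p (-1 / 4 : ZMod p) 1 = (3 * Q3 p - 8 * Q2 p) / 4 ∧ ph p (-1 / 2 : ZMod p) 1 = -Q2 p

/-- ROW dv:K1 (hyps `RD_stmt`, `PHD_stmt`).  `(1+X) ℓ' = 1 - X^(p-1)` (`(1+X)^p = 1 + X^p`), and
`K'D - KD' = ℓ'D² - X^p(R'D - RD')`, `X(1+X)(R'D-RD') = 1-D²`. -/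
def K1_stmt : Prop := ∀ (p : ℕ) [Fact p.Prime], 5 ≤ p →
  (1 + X) * (derivative (Kp p) * red p (Dz (nn p)) - Kp p * derivative (red p (Dz (nn p))))
    = red p (Dz (nn p)) ^ 2 - X ^ (p - 1)

/-- ROW dv:K2 (hyps `K1 RP PHD PHV`, `PAR` is proved: Pool/Agent/helper19/DK/PAR.lean, already
imported).  `K(0) = 0`.  Degree: a priori `≤ n+p-1`; `natDegree D = n` (`C(2n,n) ≠ 0`); if
`natDegree K = m > p-1-n` then `m ≠ n mod p`, the left side of K1 has degree `m+n > p-1 ≥ 2n`.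
`p % 3 = 1`: `n` is even, `R_n(-1/2) = 0` (RP), so `K(-1/2) = ℓ(-1/2) D(-1/2) = -Q2 D(-1/2)`. -/
def K2_stmt : Prop := ∀ (p : ℕ) [Fact p.Prime], 5 ≤ p →
  (Kp p).eval 0 = 0 ∧ (Kp p).natDegree ≤ p - 1 - nn p ∧
  (p % 3 = 1 → (Kp p).eval (-1 / 2) = -Q2 p * (red p (Dz (nn p))).eval (-1 / 2))

/-- ROW dv:KS (hyp `K1_stmt`).  Compose K1 with `ys p`, multiply by `(ys p)' = -(3/4)(X²-1)`,
`1 + ys p = (2-X)(X+1)²/4`, `(ys p)^(p-1) = ((X-1)²(X+2))^(p-1)`, cancel `(X+1)/4`. -/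
def KS_stmt : Prop := ∀ (p : ℕ) [Fact p.Prime], 5 ≤ p →
  (2 - X) * (X + 1) * (derivative (Ks p) * Ds p - Ks p * derivative (Ds p))
    = -3 * ((X - 1) * (Ds p ^ 2 - ((X - 1) ^ 2 * (X + 2)) ^ (p - 1)))

/-- the auxiliary polynomial of (★) -/
noncomputable def Gm (p : ℕ) [Fact p.Prime] (v : (ZMod p)[X]) : (ZMod p)[X] :=
  (X ^ p + 2) * (X ^ p - 1) * hm (3 * hh p) v
    - C (3 ^ (3 * hh p)) * (X ^ p * (X ^ p + 1) * (Ks p * Ds p)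
      + Ds p ^ 2 * (C (1 / 2) * (X ^ p + 3) * ph p X (-2) - 2 * X ^ p * ph p X 1
        + C (3 / 2) * (X ^ p - 1) * ph p X 2))

/-- ROW dv:GAM (hyps `FOS KS PHD`).  `z = X^p` has derivative 0.  Multiply by `(4-X²)(X+1)` and use
`(X-2)^(p-1)(X-2) = z-2`, `(X+1)^(p-1)(X+1) = z+1`, `(X+2)^(p-1)(X+2) = z+2`, `(X-1)^(p-1)(X-1) = z-1`:
the coefficient of `D²` is `-3X(X+1)(z+2)(z-1) + 3z(z+1)(X+2)(X-1) + (1/2)(z+3)(z-2)(X+1)(X+2)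
+ 2z(z+1)(4-X²) + (3/2)(z-1)(z+2)(X-2)(X+1) = 0` (the terms with `X^(p-1)` cancel:
`(1/2)(z+3) - 2z + (3/2)(z-1) = 0`), and the rest is `3(z+2)(z-1)z(z+1)(X-1)^(p-1)` twice with
opposite signs.  Then `Gm' D = 2 Gm D'`, multiply by `D`. -/
def GAM_stmt : Prop := ∀ (p : ℕ) [Fact p.Prime], 7 ≤ p → p % 3 = 1 → ∀ V : ℤ[X], IsV p V →
  derivative (Gm p (red p V)) * Ds p ^ 2 = Gm p (red p V) * derivative (Ds p ^ 2)

/-- ROW dv:DN (hyps `RD_stmt`).  `natDegree (Ds p) = 3n` (leading coefficient `C(2n,n)(-1/4)^n ≠ 0`), and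
`Ds²` has no factor `(X-a)^p`: it would give `Ds(a) = Ds'(a) = 0`; `Ds' = D_n'(y) y'`,
`y' = -(3/4)(X²-1)`; `a = ±1` gives `y = 0, -1`, `D_n = ±1` there (`PAR`); else `D_n(y) = D_n'(y) = 0`
contradicts RD (`0 = 1`). -/
def DN_stmt : Prop := ∀ (p : ℕ) [Fact p.Prime], 7 ≤ p → (Ds p).natDegree = 3 * nn p ∧
  ∀ a : ZMod p, ¬ (X - C a) ^ p ∣ Ds p ^ 2

/-- ROW dv:STAR (hyps `VEX GAM CST DN K2 PHV PHD HM`).  `p % 3 = 1`: `Gm = expand g * D²` (CST), degrees: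
`natDegree Gm ≤ 5p-3`, `natDegree D² = 2p-2`: `natDegree g ≤ 2`.  Values at `s = -1, 1, -2`:
`hm (3h) v` vanishes at `±1` (`v(0) = 0`), `K(0) = 0`, `y(1) = y(-2) = 0`, `y(-1) = -1`, `D = 1` there
(`n` even): `g(-1) = 3 Q3 - 8 Q2`, `g(1) = 0`, `g(-2) = -6 Q2` (times `κ`), solve for the coefficients. -/
def STAR_stmt : Prop := ∀ (p : ℕ) [Fact p.Prime], 7 ≤ p → p % 3 = 1 → ∀ V : ℤ[X], IsV p V →
  Gm p (red p V) = C (3 ^ (3 * hh p)) * (C (-6 * Q2 p + 3 * Q3 p)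
    + C (4 * Q2 p - 3 / 2 * Q3 p) * X ^ p + C (2 * Q2 p - 3 / 2 * Q3 p) * X ^ (2 * p)) * Ds p ^ 2

/-- ROW dv:E14 (hyps `STAR HM HW PHV`).  STAR at `s = 0`: `-2 * 4^(3h) v(-1/4) = κ D(0)² (3 Q3 - 6 Q2)`, and HW
at 0: `4^(3h) W(-1/4) = κ D(0)²`; `4^h = 1`. -/
def E14_stmt : Prop := ∀ (p : ℕ) [Fact p.Prime], 7 ≤ p → p % 3 = 1 → ∀ V : ℤ[X], IsV p V →
  (red p V).eval (-1 / 4) = (Wp p).eval (-1 / 4) * (3 * Q2 p - 3 / 2 * Q3 p)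

/-- ROW dv:RT3.  In any field `F` of characteristic `p` with `s² = 3`, `z = s^p`:
from `(s-2)(s+2) = -1` and `(s+1)² = 2(s+2)` in `ℤ√3` (`Zsqrtd 3`, no `p`-torsion), raise to the power
`p`, write `(s+a)^p = s^p + a^p + p ph(s,a)`, divide by `p`, map to `F` (`Zsqrtd.lift`). -/
def RT3_stmt : Prop := ∀ (p : ℕ) [Fact p.Prime] (F : Type) [Field F] [Algebra (ZMod p) F], 5 ≤ p →
  ∀ s : F, s ^ 2 = 3 →
    (s ^ p + 2) * ph p s (-2) + (s ^ p - 2) * ph p s 2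
      = algebraMap (ZMod p) F (8 * Q2 p - 3 * Q3 p) ∧
    2 * (s ^ p + 1) * ph p s 1 - 2 * ph p s 2
      = algebraMap (ZMod p) F (2 * Q2 p) * s ^ p + algebraMap (ZMod p) F (8 * Q2 p - 3 * Q3 p)

/-- ROW dv:E2 (hyps `STAR HM HW K2 RT3`).  Map STAR to `F = AlgebraicClosure (ZMod p)`, evaluate at `s`,
`s² = 3`: `4 - s² = 1`, `s² - 1 = 2`, `hm (3h) v` becomes `v(2)`, `y = -1/2`, `z² = 3`, `K = -Q2 D`
(K2); with RT3 everything cancels and `(1+z) v(2) = -(3/2) Q3 (1+z) κ D²`, `W(2) = κ D²`. -/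
def E2_stmt : Prop := ∀ (p : ℕ) [Fact p.Prime], 7 ≤ p → p % 3 = 1 → ∀ V : ℤ[X], IsV p V →
  (red p V).eval 2 = (Wp p).eval 2 * (-(3 / 2) * Q3 p)

/-- ROW dv:SQ.  `a = 2, 3`: in `ZMod (p^2)`, `a^h = χ(a) (1 + lp(Q_a/2))`: both sides have the same square
`a^(p-1) = 1 + lp(Q_a)` and the same reduction `χ(a)` (a unit). -/
def SQ_stmt : Prop := ∀ (p : ℕ) [Fact p.Prime], 5 ≤ p →
  (2 : ZMod (p ^ 2)) ^ hh p = qc p 2 * (1 + lp p (Q2 p / 2)) ∧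
  (3 : ZMod (p ^ 2)) ^ hh p = qc p 3 * (1 + lp p (Q3 p / 2))

/-- ROW dv:F2 (hyps `VEX E2 SQ M1`).  `16^h St(2) = S1(2) + p V(2)`, `S1(2) = 16^h 27^h T(1/108)`
(`= ∑ a_k 16^(h-k) 4^k 27^(h-k)`), `p V(2) = lp(v(2))`, `W(2)` = reduction of `St(2)`; so
`St(2) (1 + lp((3/2) Q3)) = 3^(3h) T(1/108)`. -/
def F2_stmt : Prop := ∀ (p : ℕ) [Fact p.Prime], 7 ≤ p → p % 3 = 1 → ∀ u : ZMod (p ^ 2), 108 * u = 1 →
  (((St p).eval 2 : ℤ) : ZMod (p ^ 2))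
    = qc p 3 * ∑ k ∈ range (hh p + 1), (ak k : ZMod (p ^ 2)) * u ^ k

/-- ROW dv:F14 (hyps `VEX E14 SQ M1`).  The same at `t ≡ -1/4 mod p^2`: `S1(t) = 16^h (3/4)^(3h) T(1/108)`. -/
def F14_stmt : Prop := ∀ (p : ℕ) [Fact p.Prime], 7 ≤ p → p % 3 = 1 → ∀ u : ZMod (p ^ 2), 108 * u = 1 →
  ∀ t : ℤ, 4 * (t : ZMod (p ^ 2)) = -1 →
  (((St p).eval t : ℤ) : ZMod (p ^ 2))
    = qc p 3 * ∑ k ∈ range (hh p + 1), (ak k : ZMod (p ^ 2)) * u ^ k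

end Pool.Agent.helper60.DA
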